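import Pool.Agent.Helper879.ECD.Defs

set_option autoImplicit false

namespace Pool.Agent.Helper879.ECD

open Finset in
theorem ecd_of_cert {V E K : Type} [Finite V] [Finite E] (H : MGraph V E) (κ : E → K)
    (μ : V → K → Bool)
    (h1 : ∀ e, ∀ x ∈ H.ends e, {f | x ∈ H.ends f ∧ κ f = κ e}.ncard = 2)
    (h2 : ∀ e x y, H.ends e = s(x, y) → μ x (κ e) ≠ μ y (κ e)) :
    H.HasEvenCircuitDecomposition := by
  classical
  have := Fintype.ofFinite V
  have := Fintype.ofFinite E
  let rel : E → E → Prop := fun a b => κ a = κ b ∧ ∃ x, x ∈ H.ends a ∧ x ∈ H.ends b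
  have hsymm : ∀ a b, rel a b → rel b a := fun a b ⟨h, x, hx, hy⟩ => ⟨h.symm, x, hy, hx⟩
  let S : Setoid E :=
    { r := Relation.ReflTransGen rel
      iseqv := ⟨fun _ => Relation.ReflTransGen.refl, fun h => by
        induction h with
        | refl => exact Relation.ReflTransGen.refl
        | tail _ h ih => exact Relation.ReflTransGen.head (hsymm _ _ h) ih,
        fun h h' => h.trans h'⟩ }
  have hκ : ∀ a b, Relation.ReflTransGen rel a b → κ a = κ b := by
    intro a b h
    induction h with
    | refl => rfl
    | tail _ h ih => exact ih.trans h.1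
  refine ⟨S.classes, Setoid.isPartition_classes S, ?_⟩
  rintro D ⟨e0, rfl⟩
  have hD : ∀ f, f ∈ {x | S x e0} ↔ Relation.ReflTransGen rel f e0 := fun f => Iff.rfl
  have hDk : ∀ f, f ∈ {x | S x e0} → κ f = κ e0 := fun f hf => hκ _ _ hf
  have hdeg : ∀ e ∈ {x | S x e0}, ∀ x ∈ H.ends e,
      {f | f ∈ {x | S x e0} ∧ x ∈ H.ends f}.ncard = 2 := by
    intro e he x hx
    rw [← h1 e x hx]
    congr 1
    ext f
    constructor
    · rintro ⟨hf, hxf⟩
      exact ⟨hxf, (hDk f hf).trans (hDk e he).symm⟩
    · rintro ⟨hxf, hkf⟩
      exact ⟨Relation.ReflTransGen.head ⟨hkf, x, hxf, hx⟩ he, hxf⟩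
  refine ⟨⟨⟨e0, Relation.ReflTransGen.refl⟩, hdeg, ?_⟩, ?_⟩
  · intro e he f hf
    have hef : Relation.ReflTransGen rel e f := by
      have h3 : Relation.ReflTransGen rel e e0 := he
      have h4 : Relation.ReflTransGen rel f e0 := hf
      exact h3.trans (S.iseqv.symm h4)
    clear hf
    have key : ∀ g, Relation.ReflTransGen rel e g → g ∈ {x | S x e0} ∧ Relation.ReflTransGen
        (fun a b => a ∈ {x | S x e0} ∧ b ∈ {x | S x e0} ∧ ∃ x, x ∈ H.ends a ∧ x ∈ H.ends b)
        e g := by
      intro g hg
      induction hg with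
      | refl => exact ⟨he, Relation.ReflTransGen.refl⟩
      | @tail b c _ hbc ih =>
        have hc : c ∈ {x | S x e0} := Relation.ReflTransGen.head (hsymm _ _ hbc) ih.1
        exact ⟨hc, ih.2.tail ⟨ih.1, hc, hbc.2⟩⟩
    exact (key f hef).2
  · -- even length
    have hone : ∀ f ∈ (univ.filter (fun f => f ∈ {x | S x e0})),
        (univ.filter (fun x => x ∈ H.ends f ∧ μ x (κ e0) = true)).card = 1 := by
      intro f hf
      rw [Finset.mem_filter] at hf
      have hk := hDk f hf.2
      obtain ⟨x, y, hxy⟩ : ∃ x y, H.ends f = s(x, y) := by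
        induction h : H.ends f with
        | _ x y => exact ⟨x, y, rfl⟩
      have hne : x ≠ y := by
        intro h
        apply H.loopless f
        rw [hxy, h]; exact Sym2.mk_isDiag_iff.2 rfl
      have h3 := h2 f x y hxy
      rw [hk] at h3
      rw [Finset.card_eq_one]
      cases hx : μ x (κ e0) with
      | true =>
        rw [hx] at h3
        have hy : μ y (κ e0) = false := by
          cases hy : μ y (κ e0) with
          | true => rw [hy] at h3; exact absurd rfl h3
          | false => rfl
        refine ⟨x, ?_⟩
        ext z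
        rw [Finset.mem_filter, Finset.mem_singleton, hxy, Sym2.mem_iff]
        constructor
        · rintro ⟨_, h | h, h4⟩
          · exact h
          · rw [h, hy] at h4; exact absurd h4 (by decide)
        · rintro rfl
          exact ⟨Finset.mem_univ _, Or.inl rfl, hx⟩
      | false =>
        rw [hx] at h3
        have hy : μ y (κ e0) = true := by
          cases hy : μ y (κ e0) with
          | false => rw [hy] at h3; exact absurd rfl h3
          | true => rfl
        refine ⟨y, ?_⟩
        ext z
        rw [Finset.mem_filter, Finset.mem_singleton, hxy, Sym2.mem_iff]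
        constructor
        · rintro ⟨_, h | h, h4⟩
          · rw [h, hx] at h4; exact absurd h4 (by decide)
          · exact h
        · rintro rfl
          exact ⟨Finset.mem_univ _, Or.inr rfl, hy⟩
    have hcard : ({x | S x e0} : Set E).ncard = (univ.filter (fun f => f ∈ {x | S x e0})).card := by
      rw [← Set.ncard_coe_finset]
      congr 1
      ext f; simp
    rw [hcard]
    have hsum : (univ.filter (fun f => f ∈ {x | S x e0})).card =
        ∑ x ∈ univ.filter (fun x => μ x (κ e0) = true),
          ((univ.filter (fun f => f ∈ {x | S x e0})).filter (fun f => x ∈ H.ends f)).card := by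
      have h5 := Finset.sum_card_bipartiteAbove_eq_sum_card_bipartiteBelow
        (s := univ.filter (fun f => f ∈ {x | S x e0}))
        (t := univ.filter (fun x => μ x (κ e0) = true)) (fun f x => x ∈ H.ends f)
      have h6 : ∀ f ∈ (univ.filter (fun f => f ∈ {x | S x e0})),
          (Finset.bipartiteAbove (fun f x => x ∈ H.ends f)
            (univ.filter (fun x => μ x (κ e0) = true)) f).card = 1 := by
        intro f hf
        rw [← hone f hf]
        congr 1
        ext x
        simp only [Finset.mem_bipartiteAbove, Finset.mem_filter, Finset.mem_univ, true_and]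
        tauto
      rw [Finset.sum_congr rfl h6] at h5
      rw [Finset.card_eq_sum_ones, h5]
      rfl
    rw [hsum]
    apply Finset.even_sum
    intro x _
    by_cases hx : ∃ f, f ∈ {x | S x e0} ∧ x ∈ H.ends f
    · obtain ⟨f, hf, hxf⟩ := hx
      have h3 := hdeg f hf x hxf
      have h4 : ((univ.filter (fun f => f ∈ {x | S x e0})).filter (fun f => x ∈ H.ends f)).card =
          {f | f ∈ {x | S x e0} ∧ x ∈ H.ends f}.ncard := by
        rw [← Set.ncard_coe_finset]
        congr 1
        ext f; simp
      rw [h4, h3]
      exact even_two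
    · have h4 : ((univ.filter (fun f => f ∈ {x | S x e0})).filter (fun f => x ∈ H.ends f)) = ∅ := by
        rw [Finset.filter_eq_empty_iff]
        intro f hf hxf
        rw [Finset.mem_filter] at hf
        exact hx ⟨f, hf.2, hxf⟩
      rw [h4, Finset.card_empty]
      exact ⟨0, rfl⟩

end Pool.Agent.Helper879.ECD
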