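import Pool.Agent.Helper879.ECD.Build
import Pool.Agent.Helper879.ECD.Graph

set_option autoImplicit false

namespace Pool.Agent.Helper879.ECD

open Finset

lemma pair4 {L K : Type} (κ : L → K) (a b c d : L) (h1 : a ≠ b) (h2 : a ≠ c) (h3 : a ≠ d)
    (h4 : b ≠ c) (h5 : b ≠ d) (h6 : c ≠ d)
    (h : (κ a = κ c ∧ κ b = κ d ∧ κ a ≠ κ b) ∨ (κ a = κ d ∧ κ b = κ c ∧ κ a ≠ κ b) ∨
      (κ a = κ b ∧ κ c = κ d ∧ κ a ≠ κ c)) (e : L) (he : e = a ∨ e = b ∨ e = c ∨ e = d) :
    {f | (f = a ∨ f = b ∨ f = c ∨ f = d) ∧ κ f = κ e}.ncard = 2 := by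
  have key : ∀ p q r s : L, p ≠ q → κ p = κ q → κ r = κ s → κ p ≠ κ r → (e = p ∨ e = q) →
      (∀ f, (f = a ∨ f = b ∨ f = c ∨ f = d) ↔ (f = p ∨ f = q ∨ f = r ∨ f = s)) →
      {f | (f = a ∨ f = b ∨ f = c ∨ f = d) ∧ κ f = κ e}.ncard = 2 := by
    intro p q r s hpq hκ hκ' hne hep hall
    have hke : κ e = κ p := by
      rcases hep with rfl | rfl
      · rfl
      · exact hκ.symm
    have : {f | (f = a ∨ f = b ∨ f = c ∨ f = d) ∧ κ f = κ e} = {p, q} := by
      ext f
      constructor
      · rintro ⟨hf, hfe⟩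
        rw [hall] at hf
        rw [hke] at hfe
        rcases hf with rfl | rfl | rfl | rfl
        · exact Or.inl rfl
        · exact Or.inr rfl
        · exact absurd hfe.symm hne
        · exact absurd (hfe.symm.trans hκ'.symm) hne
      · rintro (rfl | rfl)
        · exact ⟨(hall _).2 (Or.inl rfl), hke.symm⟩
        · exact ⟨(hall _).2 (Or.inr (Or.inl rfl)), by rw [hke]; exact hκ.symm⟩
    rw [this]
    exact Set.ncard_pair hpq
  rcases h with ⟨k1, k2, k3⟩ | ⟨k1, k2, k3⟩ | ⟨k1, k2, k3⟩
  · rcases he with h | h | h | h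
    · exact key a c b d h2 k1 k2 k3 (Or.inl h) (fun f => by tauto)
    · exact key b d a c h5 k2 k1 k3.symm (Or.inl h) (fun f => by tauto)
    · exact key a c b d h2 k1 k2 k3 (Or.inr h) (fun f => by tauto)
    · exact key b d a c h5 k2 k1 k3.symm (Or.inr h) (fun f => by tauto)
  · rcases he with h | h | h | h
    · exact key a d b c h3 k1 k2 k3 (Or.inl h) (fun f => by tauto)
    · exact key b c a d h4 k2 k1 k3.symm (Or.inl h) (fun f => by tauto)
    · exact key b c a d h4 k2 k1 k3.symm (Or.inr h) (fun f => by tauto)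
    · exact key a d b c h3 k1 k2 k3 (Or.inr h) (fun f => by tauto)
  · rcases he with h | h | h | h
    · exact key a b c d h1 k1 k2 k3 (Or.inl h) (fun f => by tauto)
    · exact key a b c d h1 k1 k2 k3 (Or.inr h) (fun f => by tauto)
    · exact key c d a b h6 k2 k1 k3.symm (Or.inl h) (fun f => by tauto)
    · exact key c d a b h6 k2 k1 k3.symm (Or.inr h) (fun f => by tauto)

lemma f2_eq_of_add {a b : F2} (h : a + b = 0) : b = a := by
  revert a b; decide

lemma f2_eq_of_add_one {a b : F2} (h : a + b = 1) : b = 1 + a := by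
  revert a b; decide

section Colors

variable {V : Type} [Fintype V] [DecidableEq V]

/-- colour classes: the circuits of the 2-factor (possibly split in two), and two faces -/
abbrev Col (π : Equiv.Perm V) : Type := (Quotient (Equiv.Perm.SameCycle.setoid π) × F2) ⊕ F2

variable (π : Equiv.Perm V) (m : V → V) (y z w x : V → F2)

def kC (v : V) : Col π := Sum.inl (Quotient.mk _ v, x v)
def kF (v : V) : Col π := Sum.inr (y v + z v)
def colA (v : V) : Col π := if dl π w v = 1 then kC π x v else kF π y z v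
def colB (v : V) : Col π := if dl π w v = 1 then kF π y z (π.symm v) else kC π x (π.symm v)
def colC (v : V) : Col π := if dl π w v = 1 then kF π y z v else kC π x v
def lab (v : V) (k : Col π) : F2 := Sum.elim (fun _ => w v) (fun _ => y v) k
def nuB (v : V) : F2 := 1 + lab π y w (π.symm v) (colB π y z w x v)
def nuC (v : V) : F2 := 1 + lab π y w v (colC π y z w x v)

omit [Fintype V] [DecidableEq V] in
lemma kC_ne_kF (u v : V) : kC π x u ≠ kF π y z v := by
  unfold kC kF; exact Sum.inl_ne_inr

omit [Fintype V] [DecidableEq V] in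
lemma kC_symm (v : V) (h : x v + x (π.symm v) = 0) : kC π x (π.symm v) = kC π x v := by
  unfold kC
  rw [f2_eq_of_add h]
  have : (Quotient.mk (Equiv.Perm.SameCycle.setoid π) (π.symm v)) = Quotient.mk _ v := by
    apply Quotient.sound
    show π.SameCycle (π.symm v) v
    rw [Equiv.Perm.sameCycle_symm_apply_left]
  rw [this]

omit [Fintype V] [DecidableEq V] in
lemma kC_same {u v : V} (h : kC π x u = kC π x v) : π.SameCycle u v := by
  unfold kC at h
  have := (Prod.mk.inj (Sum.inl.inj h)).1
  exact Quotient.exact this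

omit [Fintype V] [DecidableEq V] in
lemma kC_eq {u v : V} (h : π.SameCycle u v) (hx : x u = x v) : kC π x u = kC π x v := by
  unfold kC
  rw [hx]
  have : (Quotient.mk (Equiv.Perm.SameCycle.setoid π) u) = Quotient.mk _ v := Quotient.sound h
  rw [this]

omit [Fintype V] [DecidableEq V] in
/-- the four colours at a matching edge, with their labels -/
lemma mate_colors (v : V) (h : Loc π m y z w x v) :
    ((colB π y z w x v = colB π y z w x (m v) ∧ colC π y z w x v = colC π y z w x (m v) ∧
        colB π y z w x v ≠ colC π y z w x v) ∨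
     (colB π y z w x v = colC π y z w x (m v) ∧ colC π y z w x v = colB π y z w x (m v) ∧
        colB π y z w x v ≠ colC π y z w x v) ∨
     (colB π y z w x v = colC π y z w x v ∧ colB π y z w x (m v) = colC π y z w x (m v) ∧
        colB π y z w x v ≠ colB π y z w x (m v))) ∧
    (colB π y z w x v = colC π y z w x v → nuB π y z w x v = nuC π y z w x v) ∧
    (colB π y z w x v = colB π y z w x (m v) → nuB π y z w x v = nuB π y z w x (m v)) ∧
    (colB π y z w x v = colC π y z w x (m v) → nuB π y z w x v = nuC π y z w x (m v)) ∧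
    (colC π y z w x v = colB π y z w x (m v) → nuC π y z w x v = nuB π y z w x (m v)) ∧
    (colC π y z w x v = colC π y z w x (m v) → nuC π y z w x v = nuC π y z w x (m v)) := by
  have n01 : ¬ ((0 : F2) = 1) := by decide
  rcases h with ⟨a1, a2, a3, a4, b1, b2, b3, b4, h⟩ | ⟨a1, a2, a3, a4, b1, b2, b3, b4, h⟩ |
    ⟨a1, a2, a3, a4, b1, b2, b3, b4, h⟩ | ⟨a1, a2, a3, a4, b1, b2, b3, b4⟩ |
    ⟨a1, a2, a3, a4, b1, b2, b3, b4⟩ | ⟨a1, a2, a3, a4, b1, b2, b3, b4, h, h'⟩
  · -- both ends in a forest of the first kind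
    unfold dl at a1 a2 b1 b2
    have e1 := f2_eq_of_add a1
    have e2 := f2_eq_of_add_one a2
    have e3 := f2_eq_of_add b1
    have e4 := f2_eq_of_add_one b2
    simp only [nuB, nuC, colB, colC, a3, b3, if_true, kF, lab, Sum.elim_inr, e1, e2, e3, e4, h,
      Sum.inr.injEq, ne_eq, implies_true, and_true]
    generalize y (m v) = α
    generalize z v = β
    generalize z (m v) = γ
    revert α β γ
    decide
  · unfold dl at a1 a2 b1 b2
    have e1 := f2_eq_of_add_one a1
    have e2 := f2_eq_of_add a2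
    have e3 := f2_eq_of_add_one b1
    have e4 := f2_eq_of_add b2
    simp only [nuB, nuC, colB, colC, a3, b3, if_true, kF, lab, Sum.elim_inr, e1, e2, e3, e4, h,
      Sum.inr.injEq, ne_eq]
    generalize z (m v) = α
    generalize y v = β
    generalize y (m v) = γ
    revert α β γ
    decide
  · have c1 := kC_symm π x v a4
    have c2 := kC_symm π x (m v) b4
    have d1 := f2_eq_of_add a3
    have d2 := f2_eq_of_add b3
    have hn : kC π x v ≠ kC π x (m v) := fun hh => h (kC_same π x hh)
    simp only [nuB, nuC, colB, colC, a3, b3, n01, if_false, c1, c2]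
    refine ⟨Or.inr (Or.inr ⟨trivial, trivial, hn⟩), ?_, fun hh => absurd hh hn,
      fun hh => absurd hh hn, fun hh => absurd hh hn, fun hh => absurd hh hn⟩
    intro _
    simp only [lab, kC, Sum.elim_inl, d1]
  · have c2 := kC_symm π x (m v) b4
    have d1 := f2_eq_of_add a1
    have d2 := f2_eq_of_add a2
    have d3 := f2_eq_of_add b3
    have hn : kF π y z v ≠ kC π x (m v) := (kC_ne_kF π y z x _ _).symm
    have c1 : kF π y z (π.symm v) = kF π y z v := by unfold kF; rw [d1, d2]
    simp only [nuB, nuC, colB, colC, a3, b3, n01, if_false, if_true, c1, c2]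
    refine ⟨Or.inr (Or.inr ⟨trivial, trivial, hn⟩), ?_, fun hh => absurd hh hn,
      fun hh => absurd hh hn, fun hh => absurd hh hn, fun hh => absurd hh hn⟩
    intro _
    simp only [lab, kF, Sum.elim_inr, d1]
  · have c2 := kC_symm π x v a4
    have d1 := f2_eq_of_add b1
    have d2 := f2_eq_of_add b2
    have d3 := f2_eq_of_add a3
    have hn : kC π x v ≠ kF π y z (m v) := kC_ne_kF π y z x _ _
    have c1 : kF π y z (π.symm (m v)) = kF π y z (m v) := by unfold kF; rw [d1, d2]
    simp only [nuB, nuC, colB, colC, a3, b3, n01, if_false, if_true, c1, c2]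
    refine ⟨Or.inr (Or.inr ⟨trivial, trivial, hn⟩), ?_, fun hh => absurd hh hn,
      fun hh => absurd hh hn, fun hh => absurd hh hn, fun hh => absurd hh hn⟩
    intro _
    simp only [lab, kC, Sum.elim_inl, d3]
  · have d1 := f2_eq_of_add a3
    have d2 := f2_eq_of_add b3
    have e1 := f2_eq_of_add_one a4
    have e2 := f2_eq_of_add_one b4
    have q1 : (Quotient.mk (Equiv.Perm.SameCycle.setoid π) (π.symm v)) = Quotient.mk _ v :=
      Quotient.sound (show π.SameCycle (π.symm v) v by
        rw [Equiv.Perm.sameCycle_symm_apply_left])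
    have q2 : (Quotient.mk (Equiv.Perm.SameCycle.setoid π) (π.symm (m v))) = Quotient.mk _ (m v) :=
      Quotient.sound (show π.SameCycle (π.symm (m v)) (m v) by
        rw [Equiv.Perm.sameCycle_symm_apply_left])
    have q3 : (Quotient.mk (Equiv.Perm.SameCycle.setoid π) v) = Quotient.mk _ (m v) :=
      Quotient.sound h
    simp only [nuB, nuC, colB, colC, a3, b3, n01, if_false, kC, lab, Sum.elim_inl, d1, d2, e1, e2,
      q1, q2, q3, h', Sum.inl.injEq, Prod.mk.injEq, true_and, ne_eq, implies_true, and_true]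
    generalize x v = α
    generalize x (m v) = β
    revert α β
    decide

end Colors

end Pool.Agent.Helper879.ECD
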