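import Pool.Agent.Helper879.ECD.Labels

set_option autoImplicit false

namespace Pool.Agent.Helper879.ECD

open Finset

section Build

variable {V : Type} [Fintype V] [DecidableEq V]

/-- change of a label at a vertex -/
def dl (π : Equiv.Perm V) (g : V → F2) (v : V) : F2 := g v + g (π.symm v)

/-- local conditions at `v` and its mate -/
def Loc (π : Equiv.Perm V) (m : V → V) (y z w x : V → F2) (v : V) : Prop :=
  (dl π y v = 0 ∧ dl π z v = 1 ∧ dl π w v = 1 ∧ dl π x v = 0 ∧
    dl π y (m v) = 0 ∧ dl π z (m v) = 1 ∧ dl π w (m v) = 1 ∧ dl π x (m v) = 0 ∧ y v = y (m v)) ∨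
  (dl π y v = 1 ∧ dl π z v = 0 ∧ dl π w v = 1 ∧ dl π x v = 0 ∧
    dl π y (m v) = 1 ∧ dl π z (m v) = 0 ∧ dl π w (m v) = 1 ∧ dl π x (m v) = 0 ∧ z v = z (m v)) ∨
  (dl π y v = 1 ∧ dl π z v = 1 ∧ dl π w v = 0 ∧ dl π x v = 0 ∧
    dl π y (m v) = 1 ∧ dl π z (m v) = 1 ∧ dl π w (m v) = 0 ∧ dl π x (m v) = 0 ∧
    ¬ π.SameCycle v (m v)) ∨
  (dl π y v = 0 ∧ dl π z v = 0 ∧ dl π w v = 1 ∧ dl π x v = 0 ∧
    dl π y (m v) = 1 ∧ dl π z (m v) = 1 ∧ dl π w (m v) = 0 ∧ dl π x (m v) = 0) ∨
  (dl π y v = 1 ∧ dl π z v = 1 ∧ dl π w v = 0 ∧ dl π x v = 0 ∧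
    dl π y (m v) = 0 ∧ dl π z (m v) = 0 ∧ dl π w (m v) = 1 ∧ dl π x (m v) = 0) ∨
  (dl π y v = 1 ∧ dl π z v = 1 ∧ dl π w v = 0 ∧ dl π x v = 1 ∧
    dl π y (m v) = 1 ∧ dl π z (m v) = 1 ∧ dl π w (m v) = 0 ∧ dl π x (m v) = 1 ∧
    π.SameCycle v (m v) ∧ w v = w (m v))

/-- flow values, invariant and balanced -/
def Valid (π : Equiv.Perm V) (m : V → V) (p q : V → F2) : Prop :=
  (∀ v, p v ≠ 0 ∨ q v ≠ 0) ∧ (∀ v, p (m v) = p v) ∧ (∀ v, q (m v) = q v) ∧ Bal π p ∧ Bal π q

omit [DecidableEq V] in
lemma Bal.add {π : Equiv.Perm V} {D D' : V → F2} (h : Bal π D) (h' : Bal π D') :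
    Bal π (fun v => D v + D' v) := by
  intro c hc
  have h1 : ∀ v ∈ (univ : Finset V), c v * (D v + D' v) = c v * D v + c v * D' v := by
    intro v _; ring
  rw [Finset.sum_congr rfl h1, Finset.sum_add_distrib, h c hc, h' c hc, add_zero]

lemma exists_max (π : Equiv.Perm V) (m : V → V) (p0 q0 : V → F2) (h0 : Valid π m p0 q0) :
    ∃ p q : V → F2, Valid π m p q ∧
      (∀ Z : V → F2, (∀ v, Z (m v) = Z v) → Bal π Z → (∀ v, Z v ≠ 0 → p v = 0) → ∀ v, Z v = 0) ∧
      (∀ Z : V → F2, (∀ v, Z (m v) = Z v) → Bal π Z → (∀ v, Z v ≠ 0 → q v = 0) → ∀ v, Z v = 0) := by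
  classical
  obtain ⟨⟨p, q⟩, hpq, hmax⟩ := Finset.exists_max_image
    (univ.filter (fun pq : (V → F2) × (V → F2) => Valid π m pq.1 pq.2))
    (fun pq => (univ.filter (fun v => pq.1 v = 1 ∧ pq.2 v = 1)).card)
    ⟨(p0, q0), by rw [Finset.mem_filter]; exact ⟨Finset.mem_univ _, h0⟩⟩
  rw [Finset.mem_filter] at hpq
  have hv : Valid π m p q := hpq.2
  have one : ∀ a : F2, a ≠ 0 → a = 1 := by decide
  refine ⟨p, q, hv, ?_, ?_⟩
  · intro Z hZm hZb hZ v
    by_contra hcon
    have hvalid : Valid π m (fun v => p v + Z v) q := by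
      refine ⟨?_, ?_, hv.2.2.1, hv.2.2.2.1.add hZb, hv.2.2.2.2⟩
      · intro u
        beta_reduce
        by_cases hu : Z u = 0
        · rw [hu, add_zero]; exact hv.1 u
        · left; rw [hZ u hu, zero_add]; exact hu
      · intro u; beta_reduce; rw [hv.2.1, hZm]
    have h1 := hmax (fun v => p v + Z v, q) (by
      rw [Finset.mem_filter]; exact ⟨Finset.mem_univ _, hvalid⟩)
    simp only at h1
    have h2 : (univ.filter (fun v => p v = 1 ∧ q v = 1)).card <
        (univ.filter (fun v => p v + Z v = 1 ∧ q v = 1)).card := by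
      apply Finset.card_lt_card
      rw [Finset.ssubset_iff_of_subset]
      · refine ⟨v, ?_, ?_⟩
        · rw [Finset.mem_filter]
          refine ⟨Finset.mem_univ _, ?_, ?_⟩
          · rw [hZ v hcon, zero_add]; exact one _ hcon
          · rcases hv.1 v with h | h
            · exact absurd (hZ v hcon) h
            · exact one _ h
        · rw [Finset.mem_filter, hZ v hcon]
          simp
      · intro u hu
        rw [Finset.mem_filter] at hu ⊢
        refine ⟨Finset.mem_univ _, ?_, hu.2.2⟩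
        have : Z u = 0 := by
          by_contra h
          have := hZ u h
          rw [hu.2.1] at this
          exact one_ne_zero this
        rw [this, add_zero]; exact hu.2.1
    omega
  · intro Z hZm hZb hZ v
    by_contra hcon
    have hvalid : Valid π m p (fun v => q v + Z v) := by
      refine ⟨?_, hv.2.1, ?_, hv.2.2.2.1, hv.2.2.2.2.add hZb⟩
      · intro u
        beta_reduce
        by_cases hu : Z u = 0
        · rw [hu, add_zero]; exact hv.1 u
        · right; rw [hZ u hu, zero_add]; exact hu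
      · intro u; beta_reduce; rw [hv.2.2.1, hZm]
    have h1 := hmax (p, fun v => q v + Z v) (by
      rw [Finset.mem_filter]; exact ⟨Finset.mem_univ _, hvalid⟩)
    simp only at h1
    have h2 : (univ.filter (fun v => p v = 1 ∧ q v = 1)).card <
        (univ.filter (fun v => p v = 1 ∧ q v + Z v = 1)).card := by
      apply Finset.card_lt_card
      rw [Finset.ssubset_iff_of_subset]
      · refine ⟨v, ?_, ?_⟩
        · rw [Finset.mem_filter]
          refine ⟨Finset.mem_univ _, ?_, ?_⟩
          · rcases hv.1 v with h | h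
            · exact one _ h
            · exact absurd (hZ v hcon) h
          · rw [hZ v hcon, zero_add]; exact one _ hcon
        · rw [Finset.mem_filter, hZ v hcon]
          simp
      · intro u hu
        rw [Finset.mem_filter] at hu ⊢
        refine ⟨Finset.mem_univ _, hu.2.1, ?_⟩
        have : Z u = 0 := by
          by_contra h
          have := hZ u h
          rw [hu.2.2] at this
          exact one_ne_zero this
        rw [this, add_zero]; exact hu.2.2
    omega

lemma chord_one (π : Equiv.Perm V) (m : V → V) (hm : ∀ v, m (m v) = v) (hne : ∀ v, m v ≠ v)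
    (p : V → F2) (hpm : ∀ v, p (m v) = p v)
    (hmin : ∀ Z : V → F2, (∀ v, Z (m v) = Z v) → Bal π Z → (∀ v, Z v ≠ 0 → p v = 0) →
      ∀ v, Z v = 0) (v : V) (hv : π.SameCycle v (m v)) : p v = 1 := by
  by_contra hcon
  have hp0 : p v = 0 := by
    rcases f2_cases (p v) with h | h
    · exact h
    · exact absurd h hcon
  have h1 := hmin (fun u => (if u = v then 1 else 0) + (if u = m v then 1 else 0)) (by
    intro u
    have e1 : (m u = v) ↔ (u = m v) := ⟨fun h => by rw [← h, hm], fun h => by rw [h, hm]⟩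
    have e2 : (m u = m v) ↔ (u = v) := ⟨fun h => by rw [← hm u, h, hm], fun h => by rw [h]⟩
    simp only [e1, e2]
    exact add_comm _ _) (by
    intro c hc
    have h2 : ∀ u ∈ (univ : Finset V), c u * ((if u = v then 1 else 0) + (if u = m v then 1 else 0))
        = (if u = v then c u else 0) + (if u = m v then c u else 0) := by
      intro u _
      split_ifs <;> ring
    rw [Finset.sum_congr rfl h2, Finset.sum_add_distrib]
    simp only [Finset.sum_ite_eq', Finset.mem_univ, if_true]
    rw [const_cycle hc hv]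
    exact f2_add_self _) (by
    intro u hu
    by_cases h3 : u = v
    · rw [h3]; exact hp0
    · by_cases h4 : u = m v
      · rw [h4, hpm]; exact hp0
      · simp [h3, h4] at hu) v
  simp only [if_true, if_neg (fun h => hne v h.symm : ¬ v = m v), add_zero] at h1
  exact one_ne_zero h1

theorem labels_exist (π : Equiv.Perm V) (m : V → V) (hm : ∀ v, m (m v) = v)
    (hne : ∀ v, m v ≠ v) (p0 q0 : V → F2) (h0 : Valid π m p0 q0) :
    ∃ y z w x : V → F2, ∀ v, Loc π m y z w x v := by
  classical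
  obtain ⟨p, q, hv, hminp, hminq⟩ := exists_max π m p0 q0 h0
  obtain ⟨hnz, hpm, hqm, hbp, hbq⟩ := hv
  have hch : ∀ v, π.SameCycle v (m v) → p v = 1 ∧ q v = 1 := fun v h =>
    ⟨chord_one π m hm hne p hpm hminp v h, chord_one π m hm hne q hqm hminq v h⟩
  choose Yf Zf Wf Xf hA hB hsY hsZ hsW hsX using
    fun r => perclass π m hm hne p q hbp hbq hch r
  let rep : V → V := fun v => Quotient.out (Quotient.mk (Equiv.Perm.SameCycle.setoid π) v)
  have hrep : ∀ v, π.SameCycle (rep v) v := by
    intro v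
    exact Quotient.exact (Quotient.out_eq (Quotient.mk (Equiv.Perm.SameCycle.setoid π) v))
  have hrep2 : ∀ u v, π.SameCycle u v → rep u = rep v := by
    intro u v h
    have : Quotient.mk (Equiv.Perm.SameCycle.setoid π) u =
        Quotient.mk (Equiv.Perm.SameCycle.setoid π) v := Quotient.sound h
    simp only [rep, this]
  have hfil : ∀ r, (univ.filter (fun v => π.SameCycle r v)) =
      univ.filter (fun v => π.SameCycle (rep r) v) := by
    intro r
    apply Finset.filter_congr
    intro v _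
    exact ⟨fun h => (hrep r).trans h, fun h => (hrep r).symm.trans h⟩
  have hbal : ∀ F : V → V → F2, (∀ r, ∑ v ∈ univ.filter (fun v => π.SameCycle r v), F r v = 0) →
      Bal π (fun v => F (rep v) v) := by
    intro F hF
    apply bal_of_sum
    intro r
    have h1 : ∀ v ∈ univ.filter (fun v => π.SameCycle r v), F (rep v) v = F (rep r) v := by
      intro v hv
      rw [Finset.mem_filter] at hv
      rw [hrep2 r v hv.2]
    rw [Finset.sum_congr rfl h1, hfil r]
    exact hF (rep r)
  obtain ⟨y, hy1, hy2⟩ := exists_pot π m hm (fun v => p v = 0) (fun v h => by rw [hpm]; exact h)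
    _ (hbal Yf hsY) hminp
  obtain ⟨z, hz1, hz2⟩ := exists_pot π m hm (fun v => q v = 0) (fun v h => by rw [hqm]; exact h)
    _ (hbal Zf hsZ) hminq
  obtain ⟨w, hw1, _⟩ := exists_pot π m hm (fun _ => False) (fun _ h => h)
    _ (hbal Wf hsW) (fun Z _ _ h v => by by_contra hc; exact h v hc)
  obtain ⟨x, hx1, _⟩ := exists_pot π m hm (fun _ => False) (fun _ h => h)
    _ (hbal Xf hsX) (fun Z _ _ h v => by by_contra hc; exact h v hc)
  refine ⟨y, z, w, x, ?_⟩
  intro v
  have dy : ∀ v, dl π y v = Yf (rep v) v := hy1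
  have dz : ∀ v, dl π z v = Zf (rep v) v := hz1
  have dw : ∀ v, dl π w v = Wf (rep v) v := hw1
  have dx : ∀ v, dl π x v = Xf (rep v) v := hx1
  by_cases hc : π.SameCycle v (m v)
  · have hr : rep (m v) = rep v := (hrep2 _ _ hc).symm
    have h1 := hB (rep v) v (hrep v) hc
    have hcond : ∀ (g : V → F2) (G : V → V → F2), (∀ u, g u + g (π.symm u) = G (rep u) u) →
        ∀ u, π.SameCycle v u → g u + g (π.symm u) = G (rep v) u := by
      intro g G hg u hu
      rw [hg u, hrep2 v u hu]
    unfold Loc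
    rw [dy, dz, dw, dx, dy, dz, dw, dx, hr]
    rcases h1 with ⟨a1, a2, a3, a4, a5, a6, a7, a8⟩ | ⟨a1, a2, a3, a4, a5, a6, a7, a8⟩ |
      ⟨a1, a2, a3, a4, a5, a6, a7, a8, a9⟩ | ⟨a1, a2, a3, a4, a5, a6, a7, a8, a9⟩ |
      ⟨a1, a2, a3, a4, a5, a6, a7, a8, a9⟩
    · right; right; right; left
      exact ⟨a1, a2, a3, a4, a5, a6, a7, a8⟩
    · right; right; right; right; left
      exact ⟨a1, a2, a3, a4, a5, a6, a7, a8⟩
    · left
      exact ⟨a1, a2, a3, a4, a5, a6, a7, a8, a9 y (hcond y Yf hy1)⟩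
    · right; left
      exact ⟨a1, a2, a3, a4, a5, a6, a7, a8, a9 z (hcond z Zf hz1)⟩
    · right; right; right; right; right
      exact ⟨a1, a2, a3, a4, a5, a6, a7, a8, hc, a9 w (hcond w Wf hw1)⟩
  · have hc' : ¬ π.SameCycle (m v) (m (m v)) := by
      rw [hm]; exact fun h => hc h.symm
    obtain ⟨b1, b2, b3, b4⟩ := hA (rep v) v (hrep v) hc
    obtain ⟨c1, c2, c3, c4⟩ := hA (rep (m v)) (m v) (hrep _) hc'
    rw [hpm] at c1
    rw [hqm] at c2
    rw [hpm, hqm] at c3
    unfold Loc
    rw [dy, dz, dw, dx, dy, dz, dw, dx, b1, b2, b3, b4, c1, c2, c3, c4]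
    rcases f2_cases (p v) with hp | hp
    · rcases f2_cases (q v) with hq | hq
      · exfalso
        rcases hnz v with h | h
        · exact h hp
        · exact h hq
      · left
        rw [hp, hq]
        exact ⟨rfl, rfl, by decide, rfl, rfl, rfl, by decide, rfl, hy2 v hp⟩
    · rcases f2_cases (q v) with hq | hq
      · right; left
        rw [hp, hq]
        exact ⟨rfl, rfl, by decide, rfl, rfl, rfl, by decide, rfl, hz2 v hq⟩
      · right; right; left
        rw [hp, hq]
        exact ⟨rfl, rfl, by decide, rfl, rfl, rfl, by decide, rfl, hc⟩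

end Build

end Pool.Agent.Helper879.ECD
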