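import Mathlib

set_option autoImplicit false

namespace Pool.Agent.Helper879.ECD

/-- A loopless multigraph with vertex set `V` and edge set `E`; `ends e` is the unordered pair
of end-vertices of the edge `e` (parallel edges are allowed). -/
structure MGraph (V E : Type) where
  ends : E → Sym2 V
  loopless : ∀ e, ¬ (ends e).IsDiag

namespace MGraph

variable {V E : Type} (G : MGraph V E)

/-- every vertex lies on exactly three edges -/
def IsCubic : Prop := ∀ v, {e | v ∈ G.ends e}.ncard = 3

/-- connected, and still connected after the deletion of any one vertex `w` -/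
def TwoConnected : Prop :=
  (∀ x y, Relation.ReflTransGen (fun a b => ∃ e, G.ends e = s(a, b)) x y) ∧
  ∀ w x y, x ≠ w → y ≠ w →
    Relation.ReflTransGen (fun a b => a ≠ w ∧ b ≠ w ∧ ∃ e, G.ends e = s(a, b)) x y

/-- edges of the line graph: a vertex `v` of `G` with an unordered pair of distinct edges of
`G` at `v` -/
def LineEdge : Type := {p : V × Sym2 E // ¬ p.2.IsDiag ∧ ∀ e ∈ p.2, p.1 ∈ G.ends e}

/-- the line graph: its vertices are the edges of `G`, and two of them are joined by one edge
for each common end-vertex -/
def lineGraph : MGraph E G.LineEdge where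
  ends p := p.1.2
  loopless p := p.2.1

/-- the edge set `D` is the edge set of a circuit: nonempty, 2-regular and connected -/
def IsCircuit (D : Set E) : Prop :=
  D.Nonempty ∧
  (∀ e ∈ D, ∀ x ∈ G.ends e, {f | f ∈ D ∧ x ∈ G.ends f}.ncard = 2) ∧
  ∀ e ∈ D, ∀ f ∈ D, Relation.ReflTransGen
    (fun a b => a ∈ D ∧ b ∈ D ∧ ∃ x, x ∈ G.ends a ∧ x ∈ G.ends b) e f

/-- the edge set can be partitioned into edge sets of circuits of even length -/
def HasEvenCircuitDecomposition : Prop :=
  ∃ P : Set (Set E), Setoid.IsPartition P ∧ ∀ D ∈ P, G.IsCircuit D ∧ Even D.ncard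

end MGraph

end Pool.Agent.Helper879.ECD
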