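import Pool.Agent.Helper879.ECD.Cuts

set_option autoImplicit false

namespace Pool.Agent.Helper879.ECD

open Finset

/-- contraction of `X` to a point -/
def contr {W : Type} [DecidableEq W] (X : Finset W) (w : W) : Option {w : W // w ∉ X} :=
  if h : w ∈ X then none else some ⟨w, h⟩

section

variable {W E : Type} [DecidableEq W] [Fintype W]

lemma contr_pre (a b : E → W) (M : Finset E) (X : Finset W)
    (Y' : Finset (Option {w : W // w ∉ X})) :
    cn (fun e => contr X (a e)) (fun e => contr X (b e)) M Y' =
      cn a b M (univ.filter (fun w => contr X w ∈ Y')) := by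
  unfold cn
  congr 1
  apply Finset.filter_congr
  intro e _
  simp

lemma contr_pre_sub (X Y : Finset W) (h : Disjoint Y X) :
    univ.filter (fun w => contr X w ∈ Y.image (contr X)) = Y := by
  ext w
  simp only [Finset.mem_filter, Finset.mem_univ, true_and, Finset.mem_image]
  constructor
  · rintro ⟨y, hy, hyw⟩
    have hyX : y ∉ X := fun h' => Finset.disjoint_left.1 h hy h'
    unfold contr at hyw
    rw [dif_neg hyX] at hyw
    split_ifs at hyw with h2
    have := Option.some.inj hyw
    have h3 : y = w := congrArg Subtype.val this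
    rw [← h3]; exact hy
  · intro hw
    exact ⟨w, hw, rfl⟩

lemma contr_pre_none (X : Finset W) :
    univ.filter (fun w => contr X w ∈ ({none} : Finset (Option {w : W // w ∉ X}))) = X := by
  ext w
  simp only [Finset.mem_filter, Finset.mem_univ, true_and, Finset.mem_singleton]
  unfold contr
  by_cases h : w ∈ X <;> simp [h]

lemma contr_pre_some (X : Finset W) (w : {w : W // w ∉ X}) :
    univ.filter (fun u => contr X u ∈ ({some w} : Finset (Option {w : W // w ∉ X}))) = {w.1} := by
  ext u
  simp only [Finset.mem_filter, Finset.mem_univ, true_and, Finset.mem_singleton]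
  unfold contr
  by_cases h : u ∈ X
  · simp only [h, dite_true]
    constructor
    · intro h2; exact absurd h2 (by simp)
    · intro h2; exact absurd (h2 ▸ h) w.2
  · simp only [h, dite_false]
    constructor
    · intro h2; exact congrArg Subtype.val (Option.some.inj h2)
    · intro h2; congr 1; exact Subtype.ext h2

/-- Theorem A: in a bridgeless cubic multigraph every edge lies in a perfect matching which
meets every edge cut of size three in exactly one edge. -/
theorem exists_pm3 {E : Type} [Fintype E] [DecidableEq E] :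
    ∀ (n : ℕ) (W : Type) [Fintype W] [DecidableEq W] (a b : E → W), Fintype.card W = n →
      (∀ w, cn a b univ {w} = 3) → (∀ X : Finset W, cn a b univ X ≠ 1) →
      ∀ e0 : E, a e0 ≠ b e0 →
      ∃ M : Finset E, e0 ∈ M ∧ ∀ X : Finset W, cn a b univ X = 3 → cn a b M X = 1 := by
  intro n
  induction n using Nat.strong_induction_on with
  | _ n ih =>
  intro W _ _ a b hn hc hb e0 he0
  classical
  by_cases htriv : ∀ X : Finset W, cn a b univ X = 3 → X.card ≤ 1 ∨ Xᶜ.card ≤ 1
  · obtain ⟨M, hM0, hM⟩ := exists_pm a b hc hb e0 he0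
    refine ⟨M, hM0, ?_⟩
    have key : ∀ X : Finset W, cn a b univ X = 3 → X.card ≤ 1 → cn a b M X = 1 := by
      intro X hX hX1
      by_cases h0 : X = ∅
      · subst h0
        simp [cn] at hX
      · obtain ⟨x, hx⟩ := Finset.nonempty_iff_ne_empty.2 h0
        have h1 : X.card = 1 := le_antisymm hX1 (Finset.card_pos.2 ⟨x, hx⟩)
        obtain ⟨y, rfl⟩ := Finset.card_eq_one.1 h1
        exact hM y
    intro X hX
    rcases htriv X hX with h | h
    · exact key X hX h
    · have h1 := key Xᶜ (by rw [cn_compl]; exact hX) h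
      rwa [cn_compl] at h1
  · push Not at htriv
    -- symmetric form: choose the side touching `e0`
    obtain ⟨X, hX3, hX1, hX2, htouch⟩ : ∃ X : Finset W, cn a b univ X = 3 ∧ 1 < X.card ∧
        1 < Xᶜ.card ∧ (a e0 ∈ X ∨ b e0 ∈ X) := by
      obtain ⟨X, h1, h2, h3⟩ := htriv
      by_cases h : a e0 ∈ X ∨ b e0 ∈ X
      · exact ⟨X, h1, h2, h3, h⟩
      · push Not at h
        refine ⟨Xᶜ, by rw [cn_compl]; exact h1, h3, by rw [compl_compl]; exact h2, Or.inl ?_⟩
        rw [Finset.mem_compl]; exact h.1
    -- contraction of a side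
    have step : ∀ Z : Finset W, cn a b univ Z = 3 → 1 < Z.card → ∀ f : E, a f ≠ b f →
        (a f ∉ Z ∨ b f ∉ Z) →
        ∃ M : Finset E, f ∈ M ∧ cn a b M Z = 1 ∧
          ∀ Y : Finset W, Disjoint Y Z → cn a b univ Y = 3 → cn a b M Y = 1 := by
      intro Z hZ3 hZ1 f hf hft
      have hcard : Fintype.card (Option {w : W // w ∉ Z}) < n := by
        rw [Fintype.card_option, Fintype.card_subtype_compl, Fintype.card_coe, ← hn]
        have := Finset.card_le_univ Z
        omega
      have q1 : ∀ w, cn (fun e => contr Z (a e)) (fun e => contr Z (b e)) univ {w} = 3 := by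
        rintro (_ | w)
        · rw [contr_pre, contr_pre_none]; exact hZ3
        · rw [contr_pre, contr_pre_some]; exact hc _
      have q2 : ∀ Y, cn (fun e => contr Z (a e)) (fun e => contr Z (b e)) univ Y ≠ 1 := by
        intro Y; rw [contr_pre]; exact hb _
      have q3 : contr Z (a f) ≠ contr Z (b f) := by
        intro h
        unfold contr at h
        by_cases h1 : a f ∈ Z
        · have h2 : b f ∉ Z := by
            rcases hft with h3 | h3
            · exact absurd h1 h3
            · exact h3
          simp [h1, h2] at h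
        · by_cases h2 : b f ∈ Z
          · simp [h1, h2] at h
          · simp only [h1, h2, dite_false, Option.some.injEq, Subtype.mk.injEq] at h
            exact hf h
      obtain ⟨M, hM1, hM2⟩ := ih _ hcard (Option {w : W // w ∉ Z})
        (fun e => contr Z (a e)) (fun e => contr Z (b e)) rfl q1 q2 f q3
      refine ⟨M, hM1, ?_, ?_⟩
      · have := hM2 {none} (by rw [contr_pre, contr_pre_none]; exact hZ3)
        rwa [contr_pre, contr_pre_none] at this
      · intro Y hY hY3
        have := hM2 (Y.image (contr Z)) (by rw [contr_pre, contr_pre_sub Z Y hY]; exact hY3)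
        rwa [contr_pre, contr_pre_sub Z Y hY] at this
    obtain ⟨M1, h1a, h1b, h1c⟩ := step Xᶜ (by rw [cn_compl]; exact hX3) hX2 e0 he0 (by
      simp only [Finset.mem_compl, not_not]; exact htouch)
    rw [cn_compl] at h1b
    -- the unique cut edge of `M1`
    unfold cn at h1b
    obtain ⟨f, hf⟩ := Finset.card_eq_one.1 h1b
    have hfmem : f ∈ M1 ∧ ¬ (a f ∈ X ↔ b f ∈ X) := by
      have : f ∈ M1.filter (fun e => ¬ (a e ∈ X ↔ b e ∈ X)) := by rw [hf]; simp
      rw [Finset.mem_filter] at this; exact this
    have hfne : a f ≠ b f := by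
      intro h; apply hfmem.2; rw [h]
    obtain ⟨M2, h2a, h2b, h2c⟩ := step X hX3 hX1 f hfne (by
      by_contra h; push Not at h; exact hfmem.2 ⟨fun _ => h.2, fun _ => h.1⟩)
    have h2f : M2.filter (fun e => ¬ (a e ∈ X ↔ b e ∈ X)) = {f} := by
      unfold cn at h2b
      obtain ⟨g, hg⟩ := Finset.card_eq_one.1 h2b
      have : f ∈ M2.filter (fun e => ¬ (a e ∈ X ↔ b e ∈ X)) := by
        rw [Finset.mem_filter]; exact ⟨h2a, hfmem.2⟩
      rw [hg, Finset.mem_singleton] at this
      rw [hg, this]
    have hcut1 : ∀ e, e ∈ M1 → ¬ (a e ∈ X ↔ b e ∈ X) → e = f := by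
      intro e he he2
      have : e ∈ M1.filter (fun e => ¬ (a e ∈ X ↔ b e ∈ X)) := by
        rw [Finset.mem_filter]; exact ⟨he, he2⟩
      rw [hf, Finset.mem_singleton] at this; exact this
    have hcut2 : ∀ e, e ∈ M2 → ¬ (a e ∈ X ↔ b e ∈ X) → e = f := by
      intro e he he2
      have : e ∈ M2.filter (fun e => ¬ (a e ∈ X ↔ b e ∈ X)) := by
        rw [Finset.mem_filter]; exact ⟨he, he2⟩
      rw [h2f, Finset.mem_singleton] at this; exact this
    obtain ⟨M, hMmem⟩ : ∃ M : Finset E, ∀ e, e ∈ M ↔ (e ∈ M1 ∧ (a e ∈ X ∨ b e ∈ X)) ∨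
      (e ∈ M2 ∧ (a e ∉ X ∨ b e ∉ X)) :=
      ⟨univ.filter (fun e => (e ∈ M1 ∧ (a e ∈ X ∨ b e ∈ X)) ∨
        (e ∈ M2 ∧ (a e ∉ X ∨ b e ∉ X))), by intro e; simp⟩
    have hin : ∀ Y : Finset W, Y ⊆ X → cn a b M Y = cn a b M1 Y := by
      intro Y hY
      unfold cn
      congr 1
      ext e
      rw [Finset.mem_filter, Finset.mem_filter, hMmem]
      constructor
      · rintro ⟨h | h, h'⟩
        · exact ⟨h.1, h'⟩
        · refine ⟨?_, h'⟩
          have h3 : a e ∈ X ∨ b e ∈ X := by
            by_contra hcon
            push Not at hcon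
            exact h' ⟨fun h4 => absurd (hY h4) hcon.1, fun h4 => absurd (hY h4) hcon.2⟩
          have h4 : ¬ (a e ∈ X ↔ b e ∈ X) := by
            intro h5
            rcases h.2 with h6 | h6
            · rcases h3 with h7 | h7
              · exact h6 h7
              · exact h6 (h5.2 h7)
            · rcases h3 with h7 | h7
              · exact h6 (h5.1 h7)
              · exact h6 h7
          rw [hcut2 e h.1 h4]; exact hfmem.1
      · rintro ⟨h, h'⟩
        refine ⟨Or.inl ⟨h, ?_⟩, h'⟩
        by_contra hcon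
        push Not at hcon
        exact h' ⟨fun h4 => absurd (hY h4) hcon.1, fun h4 => absurd (hY h4) hcon.2⟩
    have hout : ∀ Y : Finset W, Disjoint Y X → cn a b M Y = cn a b M2 Y := by
      intro Y hY
      have hY' : ∀ w, w ∈ Y → w ∉ X := fun w h h' => Finset.disjoint_left.1 hY h h'
      unfold cn
      congr 1
      ext e
      rw [Finset.mem_filter, Finset.mem_filter, hMmem]
      constructor
      · rintro ⟨h | h, h'⟩
        · refine ⟨?_, h'⟩
          have h3 : a e ∉ X ∨ b e ∉ X := by
            by_contra hcon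
            push Not at hcon
            exact h' ⟨fun h4 => absurd hcon.1 (hY' _ h4), fun h4 => absurd hcon.2 (hY' _ h4)⟩
          have h4 : ¬ (a e ∈ X ↔ b e ∈ X) := by
            intro h5
            rcases h.2 with h6 | h6
            · rcases h3 with h7 | h7
              · exact h7 h6
              · exact h7 (h5.1 h6)
            · rcases h3 with h7 | h7
              · exact h7 (h5.2 h6)
              · exact h7 h6
          rw [hcut1 e h.1 h4]; exact h2a
        · exact ⟨h.1, h'⟩
      · rintro ⟨h, h'⟩
        refine ⟨Or.inr ⟨h, ?_⟩, h'⟩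
        by_contra hcon
        push Not at hcon
        exact h' ⟨fun h4 => absurd hcon.1 (hY' _ h4), fun h4 => absurd hcon.2 (hY' _ h4)⟩
    have hMX : cn a b M X = 1 := by
      rw [hin X (Finset.Subset.refl _)]
      unfold cn; rw [hf]; rfl
    -- small sides
    have hA : ∀ Y : Finset W, Y ⊆ X → cn a b univ Y = 3 → cn a b M Y = 1 := by
      intro Y hY hY3
      rw [hin Y hY]
      apply h1c Y _ hY3
      rw [Finset.disjoint_left]
      intro w hw hw'
      exact (Finset.mem_compl.1 hw') (hY hw)
    have hB : ∀ Y : Finset W, Disjoint Y X → cn a b univ Y = 3 → cn a b M Y = 1 := by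
      intro Y hY hY3
      rw [hout Y hY]
      exact h2c Y hY hY3
    refine ⟨M, ?_, ?_⟩
    · rw [hMmem]; exact Or.inl ⟨h1a, htouch⟩
    · intro Y hY3
      have hpar : ∀ Z : Finset W, cn a b univ Z % 2 = Z.card % 2 := by
        intro Z
        have h1 := sum_cn a b univ Z
        rw [Finset.sum_congr rfl (fun w _ => hc w), Finset.sum_const, smul_eq_mul] at h1
        omega
      have hXo := hpar X
      have hYo := hpar Y
      rw [hX3] at hXo
      rw [hY3] at hYo
      rcases Nat.even_or_odd (X ∩ Y).card with he | ho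
      · -- use the differences
        rw [Nat.even_iff] at he
        have e1 : (X \ Y).card + (X ∩ Y).card = X.card := Finset.card_sdiff_add_card_inter X Y
        have e2 : (Y \ X).card + (Y ∩ X).card = Y.card := Finset.card_sdiff_add_card_inter Y X
        rw [Finset.inter_comm Y X] at e2
        have u1 := cn_uncross2 a b univ X Y
        have u2 := cn_uncross2 a b M X Y
        have p1 := hpar (X \ Y)
        have p2 := hpar (Y \ X)
        have b1 := hb (X \ Y)
        have b2 := hb (Y \ X)
        rw [hX3, hY3] at u1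
        have c1 : cn a b univ (X \ Y) = 3 := by omega
        have c2 : cn a b univ (Y \ X) = 3 := by omega
        have c3 : (univ.filter (fun e => (a e ∈ X ∧ a e ∈ Y ∧ b e ∉ Y ∧ b e ∉ X) ∨
          (b e ∈ X ∧ b e ∈ Y ∧ a e ∉ Y ∧ a e ∉ X))).card = 0 := by omega
        have c4 : (M.filter (fun e => (a e ∈ X ∧ a e ∈ Y ∧ b e ∉ Y ∧ b e ∉ X) ∨
          (b e ∈ X ∧ b e ∈ Y ∧ a e ∉ Y ∧ a e ∉ X))).card = 0 := by
          rw [Finset.card_eq_zero] at c3 ⊢
          rw [Finset.filter_eq_empty_iff] at c3 ⊢
          intro e _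
          exact c3 (Finset.mem_univ e)
        have d1 := hA (X \ Y) Finset.sdiff_subset c1
        have d2 := hB (Y \ X) Finset.sdiff_disjoint c2
        rw [c4, hMX, d1, d2] at u2
        omega
      · rw [Nat.odd_iff] at ho
        have e1 : (X ∪ Y).card + (X ∩ Y).card = X.card + Y.card := Finset.card_union_add_card_inter X Y
        have u1 := cn_uncross1 a b univ X Y
        have u2 := cn_uncross1 a b M X Y
        have p1 := hpar (X ∩ Y)
        have p2 := hpar (X ∪ Y)
        have b1 := hb (X ∩ Y)
        have b2 := hb (X ∪ Y)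
        rw [hX3, hY3] at u1
        have c1 : cn a b univ (X ∩ Y) = 3 := by omega
        have c2 : cn a b univ (X ∪ Y) = 3 := by omega
        have c3 : (univ.filter (fun e => (a e ∈ X ∧ a e ∉ Y ∧ b e ∈ Y ∧ b e ∉ X) ∨
          (b e ∈ X ∧ b e ∉ Y ∧ a e ∈ Y ∧ a e ∉ X))).card = 0 := by omega
        have c4 : (M.filter (fun e => (a e ∈ X ∧ a e ∉ Y ∧ b e ∈ Y ∧ b e ∉ X) ∨
          (b e ∈ X ∧ b e ∉ Y ∧ a e ∈ Y ∧ a e ∉ X))).card = 0 := by
          rw [Finset.card_eq_zero] at c3 ⊢
          rw [Finset.filter_eq_empty_iff] at c3 ⊢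
          intro e _
          exact c3 (Finset.mem_univ e)
        have d1 := hA (X ∩ Y) Finset.inter_subset_left c1
        have d2 := hB (X ∪ Y)ᶜ (by
          rw [Finset.disjoint_left]
          intro w hw hw'
          exact (Finset.mem_compl.1 hw) (Finset.mem_union_left _ hw')) (by rw [cn_compl]; exact c2)
        rw [cn_compl] at d2
        rw [c4, hMX, d1, d2] at u2
        omega

end

end Pool.Agent.Helper879.ECD
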