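import Pool.Agent.Helper879.ECD.Flow

set_option autoImplicit false

namespace Pool.Agent.Helper879.ECD

open Finset

lemma fredholm {ι U : Type} [Fintype ι] [DecidableEq ι] [AddCommGroup U] [Module F2 U]
    (A : U →ₗ[F2] (ι → F2)) (b : ι → F2)
    (h : ∀ l : ι → F2, (∀ g, ∑ i, l i * A g i = 0) → ∑ i, l i * b i = 0) : ∃ g, A g = b := by
  by_contra hcon
  have hb : b ∉ LinearMap.range A := fun ⟨g, hg⟩ => hcon ⟨g, hg⟩
  obtain ⟨f, hf1, hf2⟩ := Submodule.exists_le_ker_of_notMem hb
  have hval : ∀ v : ι → F2, f v = ∑ i, f (fun j => if i = j then 1 else 0) * v i := by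
    intro v
    rw [LinearMap.pi_apply_eq_sum_univ f v]
    apply Finset.sum_congr rfl
    intro i _
    rw [smul_eq_mul, mul_comm]
  apply hf1
  rw [hval]
  apply h
  intro g
  rw [← hval]
  exact hf2 ⟨g, rfl⟩

section Labels

variable {V : Type} [Fintype V] [DecidableEq V]

/-- the sum over every cycle of `π` vanishes -/
def Bal (π : Equiv.Perm V) (D : V → F2) : Prop :=
  ∀ c : V → F2, (∀ v, c (π v) = c v) → ∑ v, c v * D v = 0

omit [DecidableEq V] in
lemma const_cycle {π : Equiv.Perm V} {α : Type} {c : V → α} (hc : ∀ v, c (π v) = c v) {u v : V}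
    (h : π.SameCycle u v) : c v = c u := by
  obtain ⟨i, hi⟩ := h.exists_nat_pow_eq
  rw [← hi]
  clear hi
  induction i with
  | zero => simp
  | succ n ih => rw [pow_succ', Equiv.Perm.mul_apply, hc, ih]

lemma Bal.sum_cycle {π : Equiv.Perm V} {D : V → F2} (h : Bal π D) (r : V) :
    ∑ v ∈ univ.filter (fun v => π.SameCycle r v), D v = 0 := by
  have h1 := h (fun v => if π.SameCycle r v then 1 else 0) (by
    intro v
    simp only [Equiv.Perm.sameCycle_apply_right])
  rw [Finset.sum_filter]
  refine Eq.trans ?_ h1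
  apply Finset.sum_congr rfl
  intro v _
  split_ifs <;> simp

lemma bal_of_sum {π : Equiv.Perm V} {D : V → F2}
    (h : ∀ r, ∑ v ∈ univ.filter (fun v => π.SameCycle r v), D v = 0) : Bal π D := by
  classical
  intro c hc
  let q : V → Quotient (Equiv.Perm.SameCycle.setoid π) := fun v => Quotient.mk _ v
  rw [← Finset.sum_fiberwise (s := univ) (g := q)]
  apply Finset.sum_eq_zero
  intro κ _
  obtain ⟨r, rfl⟩ := Quotient.exists_rep κ
  have h1 : (univ.filter (fun v => q v = Quotient.mk _ r)) =
      univ.filter (fun v => π.SameCycle r v) := by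
    apply Finset.filter_congr
    intro v _
    constructor
    · intro h2
      exact (Quotient.exact h2 : π.SameCycle v r).symm
    · intro h2
      exact Quotient.sound (h2.symm : π.SameCycle v r)
  rw [h1]
  have h2 : ∀ v ∈ univ.filter (fun v => π.SameCycle r v), c v * D v = c r * D v := by
    intro v hv
    rw [Finset.mem_filter] at hv
    rw [const_cycle hc hv.2]
  rw [Finset.sum_congr rfl h2, ← Finset.mul_sum, h r, mul_zero]

/-- Existence of potentials with side conditions. -/
lemma exists_pot (π : Equiv.Perm V) (m : V → V) (hm : ∀ v, m (m v) = v) (N : V → Prop)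
    [DecidablePred N] (hN : ∀ v, N v → N (m v)) (Y : V → F2) (hY : Bal π Y)
    (hmin : ∀ Z : V → F2, (∀ v, Z (m v) = Z v) → Bal π Z → (∀ v, Z v ≠ 0 → N v) → ∀ v, Z v = 0) :
    ∃ y : V → F2, (∀ v, y v + y (π.symm v) = Y v) ∧ ∀ v, N v → y v = y (m v) := by
  have hN' : ∀ v, N (m v) ↔ N v := fun v => ⟨fun h => by have := hN _ h; rwa [hm] at this, hN v⟩
  let me : Equiv.Perm V := ⟨m, m, hm, hm⟩
  let A : (V → F2) →ₗ[F2] (V ⊕ V → F2) :=
    { toFun := fun g => Sum.elim (fun v => g v + g (π.symm v))
        (fun v => if N v then g v + g (m v) else 0)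
      map_add' := by
        intro g h
        ext (v | v)
        · simp only [Sum.elim_inl, Pi.add_apply]; ring
        · simp only [Sum.elim_inr, Pi.add_apply]
          split_ifs
          · ring
          · simp
      map_smul' := by
        intro a g
        ext (v | v)
        · simp only [Sum.elim_inl, Pi.smul_apply, smul_eq_mul, RingHom.id_apply]; ring
        · simp only [Sum.elim_inr, Pi.smul_apply, smul_eq_mul, RingHom.id_apply]
          split_ifs
          · ring
          · simp }
  obtain ⟨y, hy⟩ := fredholm A (Sum.elim Y (fun _ => 0)) (by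
    intro l hl
    set c : V → F2 := fun v => l (Sum.inl v) with hc
    set d : V → F2 := fun v => l (Sum.inr v) with hd
    have h1 : ∀ g : V → F2, ∑ v, (c v + c (π v) + if N v then d v + d (m v) else 0) * g v = 0 := by
      intro g
      have h2 := hl g
      rw [Fintype.sum_sum_type] at h2
      simp only [A, LinearMap.coe_mk, AddHom.coe_mk, Sum.elim_inl, Sum.elim_inr] at h2
      refine Eq.trans ?_ h2
      have h3 : ∑ v, c v * g (π.symm v) = ∑ v, c (π v) * g v := by
        rw [← Equiv.sum_comp π (fun v => c v * g (π.symm v))]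
        simp
      have h4 : ∑ v, (if N v then d v * g (m v) else 0) =
          ∑ v, (if N v then d (m v) * g v else 0) := by
        rw [← Equiv.sum_comp me (fun v => if N v then d v * g (m v) else 0)]
        apply Finset.sum_congr rfl
        intro v _
        show (if N (m v) then d (m v) * g (m (m v)) else 0) = _
        rw [hm]
        simp only [hN']
      have h5 : ∀ v ∈ (univ : Finset V), (c v + c (π v) + if N v then d v + d (m v) else 0) * g v =
          c v * g v + c (π v) * g v + ((if N v then d v * g v else 0) +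
            (if N v then d (m v) * g v else 0)) := by
        intro v _
        split_ifs <;> ring
      rw [Finset.sum_congr rfl h5, Finset.sum_add_distrib, Finset.sum_add_distrib,
        Finset.sum_add_distrib, ← h3, ← h4, ← Finset.sum_add_distrib, ← Finset.sum_add_distrib]
      congr 1
      · apply Finset.sum_congr rfl
        intro v _
        simp only [hc]; ring
      · apply Finset.sum_congr rfl
        intro v _
        simp only [hd]
        split_ifs
        · ring
        · simp
    have h2 : ∀ u, c u + c (π u) + (if N u then d u + d (m u) else 0) = 0 := by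
      intro u
      have h3 := h1 (Pi.single u 1)
      rw [Finset.sum_eq_single u] at h3
      · simpa using h3
      · intro v _ hv
        simp [Pi.single_apply, hv]
      · intro h; exact absurd (Finset.mem_univ _) h
    set Z : V → F2 := fun v => if N v then d v + d (m v) else 0 with hZ
    have hZc : ∀ v, Z v = c v + c (π v) := by
      intro v
      have h3 := h2 v
      have h4 : Z v = (c v + c (π v)) + (c v + c (π v) + Z v) := by
        rw [← add_assoc, f2_add_self, zero_add]
      rw [h4]
      show _ + (c v + c (π v) + (if N v then d v + d (m v) else 0)) = _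
      rw [h3, add_zero]
    have hZ0 := hmin Z (by
      intro v
      simp only [hZ, hN', hm]
      split_ifs
      · exact add_comm _ _
      · rfl) (by
      intro c' hc'
      have h3 : ∀ v ∈ (univ : Finset V), c' v * Z v = c' v * c v + c' (π v) * c (π v) := by
        intro v _
        rw [hZc, hc', mul_add]
      rw [Finset.sum_congr rfl h3, Finset.sum_add_distrib, Equiv.sum_comp π (fun v => c' v * c v)]
      exact f2_add_self _) (by
      intro v hv
      by_contra h3
      apply hv
      simp [hZ, h3])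
    have hcinv : ∀ v, c (π v) = c v := by
      intro v
      have h3 := hZc v
      rw [hZ0 v] at h3
      calc c (π v) = (c v + c (π v)) + c v := by
            rw [add_comm (c v), add_assoc, f2_add_self, add_zero]
        _ = c v := by rw [← h3, zero_add]
    rw [Fintype.sum_sum_type]
    simp only [Sum.elim_inl, Sum.elim_inr, mul_zero, Finset.sum_const_zero, add_zero]
    exact hY c hcinv)
  refine ⟨y, ?_, ?_⟩
  · intro v
    have := congrFun hy (Sum.inl v)
    simpa [A] using this
  · intro v hv
    have := congrFun hy (Sum.inr v)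
    simp only [A, LinearMap.coe_mk, AddHom.coe_mk, Sum.elim_inr, hv, if_true] at this
    calc y v = (y v + y (m v)) + y (m v) := by rw [add_assoc, f2_add_self, add_zero]
      _ = y (m v) := by rw [this, zero_add]

/-- the alternatives at the two ends of a chord -/
def ChAlt (π : Equiv.Perm V) (m : V → V) (Y Z W X : V → F2) (v : V) : Prop :=
  (Y v = 0 ∧ Z v = 0 ∧ W v = 1 ∧ X v = 0 ∧ Y (m v) = 1 ∧ Z (m v) = 1 ∧ W (m v) = 0 ∧ X (m v) = 0) ∨
  (Y v = 1 ∧ Z v = 1 ∧ W v = 0 ∧ X v = 0 ∧ Y (m v) = 0 ∧ Z (m v) = 0 ∧ W (m v) = 1 ∧ X (m v) = 0) ∨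
  (Y v = 0 ∧ Z v = 1 ∧ W v = 1 ∧ X v = 0 ∧ Y (m v) = 0 ∧ Z (m v) = 1 ∧ W (m v) = 1 ∧ X (m v) = 0 ∧
    ∀ y : V → F2, (∀ u, π.SameCycle v u → y u + y (π.symm u) = Y u) → y v = y (m v)) ∨
  (Y v = 1 ∧ Z v = 0 ∧ W v = 1 ∧ X v = 0 ∧ Y (m v) = 1 ∧ Z (m v) = 0 ∧ W (m v) = 1 ∧ X (m v) = 0 ∧
    ∀ y : V → F2, (∀ u, π.SameCycle v u → y u + y (π.symm u) = Z u) → y v = y (m v)) ∨
  (Y v = 1 ∧ Z v = 1 ∧ W v = 0 ∧ X v = 1 ∧ Y (m v) = 1 ∧ Z (m v) = 1 ∧ W (m v) = 0 ∧ X (m v) = 1 ∧
    ∀ y : V → F2, (∀ u, π.SameCycle v u → y u + y (π.symm u) = W u) → y v = y (m v))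

omit [Fintype V] in
lemma transversal (m : V → V) (hm : ∀ v, m (m v) = v) (A S : Finset V) (hA : ∀ v ∈ A, m v ∈ A)
    (hS : S ⊆ A) (hx : ∀ v ∈ A, (v ∈ S ∧ m v ∉ S) ∨ (v ∉ S ∧ m v ∈ S)) : A.card = 2 * S.card := by
  have h1 : A = S ∪ S.image m := by
    ext v
    rw [Finset.mem_union, Finset.mem_image]
    constructor
    · intro hv
      rcases hx v hv with h | h
      · exact Or.inl h.1
      · exact Or.inr ⟨m v, h.2, hm v⟩
    · rintro (h | ⟨u, hu, rfl⟩)
      · exact hS h
      · exact hA _ (hS hu)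
  have h2 : Disjoint S (S.image m) := by
    rw [Finset.disjoint_left]
    intro v hv hv'
    obtain ⟨u, hu, rfl⟩ := Finset.mem_image.1 hv'
    rcases hx u (hS hu) with h | h
    · exact h.2 hv
    · exact h.1 hu
  have h3 : (S.image m).card = S.card := by
    apply Finset.card_image_of_injective
    intro u v huv
    rw [← hm u, ← hm v, huv]
  rw [h1, Finset.card_union_of_disjoint h2, h3]
  omega

omit [DecidableEq V] [Fintype V] in
lemma telescope (π : Equiv.Perm V) (y Y : V → F2) (u : V)
    (h : ∀ v, π.SameCycle u v → y v + y (π.symm v) = Y v) (k : ℕ) :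
    y ((π ^ k) u) = y u + ∑ j ∈ Finset.range k, Y ((π ^ (j + 1)) u) := by
  induction k with
  | zero => simp
  | succ n ih =>
    rw [Finset.sum_range_succ, ← add_assoc, ← ih]
    have h1 := h ((π ^ (n + 1)) u) ⟨(n + 1 : ℕ), by rw [zpow_natCast]⟩
    have h2 : π.symm ((π ^ (n + 1)) u) = (π ^ n) u := by
      rw [pow_succ', Equiv.Perm.mul_apply, Equiv.symm_apply_apply]
    rw [h2] at h1
    rw [← h1, ← add_assoc, add_comm (y ((π ^ n) u)), add_assoc, f2_add_self, add_zero]

/-- choices along one cycle -/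
lemma perclass (π : Equiv.Perm V) (m : V → V) (hm : ∀ v, m (m v) = v) (hne : ∀ v, m v ≠ v)
    (p q : V → F2) (hp : Bal π p) (hq : Bal π q)
    (hch : ∀ v, π.SameCycle v (m v) → p v = 1 ∧ q v = 1) (r : V) :
    ∃ Y Z W X : V → F2,
      (∀ v, π.SameCycle r v → (¬ π.SameCycle v (m v) →
        Y v = p v ∧ Z v = q v ∧ W v = p v + q v ∧ X v = 0)) ∧
      (∀ v, π.SameCycle r v → π.SameCycle v (m v) → ChAlt π m Y Z W X v) ∧
      ∑ v ∈ univ.filter (fun v => π.SameCycle r v), Y v = 0 ∧
      ∑ v ∈ univ.filter (fun v => π.SameCycle r v), Z v = 0 ∧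
      ∑ v ∈ univ.filter (fun v => π.SameCycle r v), W v = 0 ∧
      ∑ v ∈ univ.filter (fun v => π.SameCycle r v), X v = 0 := by
  classical
  set C : Finset V := univ.filter (fun v => π.SameCycle r v) with hC
  have hCm : ∀ v, v ∈ C ↔ π.SameCycle r v := by intro v; simp [hC]
  have hCp : ∑ v ∈ C, p v = 0 := hp.sum_cycle r
  have hCq : ∑ v ∈ C, q v = 0 := hq.sum_cycle r
  have hCpq : ∑ v ∈ C, (p v + q v) = 0 := by rw [Finset.sum_add_distrib, hCp, hCq, add_zero]
  have hchm : ∀ v, π.SameCycle v (m v) → π.SameCycle (m v) (m (m v)) := by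
    intro v h; rw [hm]; exact h.symm
  have hCch : ∀ v, v ∈ C → π.SameCycle v (m v) → m v ∈ C := by
    intro v hv h; rw [hCm] at hv ⊢; exact hv.trans h
  let idx := Fintype.equivFin V
  have hidx : ∀ v, idx v ≠ idx (m v) := fun v h => hne v (idx.injective h).symm
  let Ch : Finset V := C.filter (fun v => π.SameCycle v (m v))
  have hChm : ∀ v, v ∈ Ch ↔ v ∈ C ∧ π.SameCycle v (m v) := fun v => Finset.mem_filter
  have hChc : ∀ v ∈ Ch, m v ∈ Ch := by
    intro v hv
    rw [hChm] at hv ⊢
    exact ⟨hCch v hv.1 hv.2, hchm v hv.2⟩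
  let S0 : Finset V := Ch.filter (fun v => idx v < idx (m v))
  have hS0 : Ch.card = 2 * S0.card := by
    apply transversal m hm Ch S0 hChc (Finset.filter_subset _ _)
    intro v hv
    rcases lt_trichotomy (idx v) (idx (m v)) with h | h | h
    · left
      refine ⟨Finset.mem_filter.2 ⟨hv, h⟩, fun h' => ?_⟩
      have h2 := (Finset.mem_filter.1 h').2
      rw [hm] at h2
      exact lt_asymm h h2
    · exact absurd h (hidx v)
    · right
      refine ⟨fun h' => lt_asymm h (Finset.mem_filter.1 h').2, Finset.mem_filter.2 ⟨hChc v hv, ?_⟩⟩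
      rw [hm]; exact h
  rcases Nat.even_or_odd S0.card with hev | hodd
  · -- an even number of chords
    let s : V → F2 := fun v => if v ∈ S0 then 1 else 0
    have hs : ∑ v ∈ C, s v = 0 := by
      simp only [s, ← Finset.sum_filter]
      have h1 : C.filter (fun v => v ∈ S0) = S0 := by
        ext v
        rw [Finset.mem_filter]
        exact ⟨fun h => h.2, fun h => ⟨((hChm v).1 (Finset.mem_filter.1 h).1).1, h⟩⟩
      rw [h1, Finset.sum_const, nsmul_eq_mul, mul_one]
      exact (ZMod.natCast_eq_zero_iff_even).2 hev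
    refine ⟨fun v => p v + s v, fun v => q v + s v, fun v => p v + q v + s v, fun _ => 0,
      ?_, ?_, ?_, ?_, ?_, ?_⟩
    · intro v _ hv
      have h1 : s v = 0 := if_neg (fun h => hv ((hChm v).1 (Finset.mem_filter.1 h).1).2)
      simp [h1]
    · intro v hv hvc
      have hvC : v ∈ Ch := (hChm v).2 ⟨(hCm v).2 hv, hvc⟩
      obtain ⟨p1, q1⟩ := hch v hvc
      obtain ⟨p2, q2⟩ := hch (m v) (hchm v hvc)
      by_cases hs1 : v ∈ S0
      · have hs2 : m v ∉ S0 := by
          intro h
          have h2 := (Finset.mem_filter.1 h).2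
          rw [hm] at h2
          exact lt_asymm (Finset.mem_filter.1 hs1).2 h2
        have e1 : s v = 1 := if_pos hs1
        have e2 : s (m v) = 0 := if_neg hs2
        left
        simp only [p1, q1, p2, q2, e1, e2]
        decide
      · have hs2 : m v ∈ S0 := by
          refine Finset.mem_filter.2 ⟨hChc v hvC, ?_⟩
          rw [hm]
          rcases lt_trichotomy (idx v) (idx (m v)) with h | h | h
          · exact absurd (Finset.mem_filter.2 ⟨hvC, h⟩) hs1
          · exact absurd h (hidx v)
          · exact h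
        have e1 : s v = 0 := if_neg hs1
        have e2 : s (m v) = 1 := if_pos hs2
        right; left
        simp only [p1, q1, p2, q2, e1, e2]
        decide
    · rw [Finset.sum_add_distrib, hCp, hs, add_zero]
    · rw [Finset.sum_add_distrib, hCq, hs, add_zero]
    · rw [Finset.sum_add_distrib, hCpq, hs, add_zero]
    · simp
  · -- an odd number of chords: one special chord
    let Q : ℕ → Prop := fun k => 1 ≤ k ∧ ∃ u, π.SameCycle r u ∧ (π ^ k) u = m u
    have hQ : ∃ k, Q k := by
      have h1 : 0 < S0.card := by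
        rcases hodd with ⟨j, hj⟩; omega
      obtain ⟨v, hv⟩ := Finset.card_pos.1 h1
      have hv1 := (hChm v).1 (Finset.mem_filter.1 hv).1
      obtain ⟨i, hi, _, hi2⟩ := hv1.2.exists_pow_eq''
      exact ⟨i, hi, v, (hCm v).1 hv1.1, hi2⟩
    obtain ⟨hk1, u, hu, hku⟩ := Nat.find_spec hQ
    have hkmin : ∀ j, j < Nat.find hQ → ¬ Q j := fun j hj => Nat.find_min hQ hj
    generalize Nat.find hQ = k at hk1 hku hkmin
    have hpw : ∀ j, π.SameCycle r ((π ^ j) u) := fun j => Equiv.Perm.sameCycle_pow_right.2 hu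
    have F1 : ∀ j, 0 < j → j < k → (π ^ j) u ≠ m u := by
      intro j h1 h2 h3
      exact hkmin j h2 ⟨h1, u, hu, h3⟩
    have F2' : ∀ j, 0 < j → j < k → (π ^ j) u ≠ u := by
      intro j h1 h2 h3
      apply hkmin (k - j) (by omega)
      refine ⟨by omega, u, hu, ?_⟩
      rw [← hku]
      conv_rhs => rw [show k = (k - j) + j by omega, pow_add, Equiv.Perm.mul_apply, h3]
    have F3 : ∀ i j, 0 < i → i < k → 0 < j → j < k → m ((π ^ i) u) ≠ (π ^ j) u := by
      intro i j hi1 hi2 hj1 hj2 h
      rcases lt_trichotomy i j with h1 | h1 | h1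
      · apply hkmin (j - i) (by omega)
        refine ⟨by omega, (π ^ i) u, hpw i, ?_⟩
        rw [h, ← Equiv.Perm.mul_apply, ← pow_add]
        congr 2
        omega
      · subst h1; exact hne _ h
      · apply hkmin (i - j) (by omega)
        refine ⟨by omega, (π ^ j) u, hpw j, ?_⟩
        rw [← h, hm, h, ← Equiv.Perm.mul_apply, ← pow_add]
        congr 2
        omega
    let P : Finset V := (Finset.Ioo 0 k).image (fun j => (π ^ j) u)
    have hP : ∀ v, v ∈ P ↔ ∃ j, 0 < j ∧ j < k ∧ (π ^ j) u = v := by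
      intro v
      simp only [P, Finset.mem_image, Finset.mem_Ioo]
      constructor
      · rintro ⟨j, ⟨h1, h2⟩, h3⟩; exact ⟨j, h1, h2, h3⟩
      · rintro ⟨j, h1, h2, h3⟩; exact ⟨j, ⟨h1, h2⟩, h3⟩
    have hPm : ∀ v, v ∈ P → m v ∉ P := by
      intro v hv hv'
      obtain ⟨i, i1, i2, rfl⟩ := (hP v).1 hv
      obtain ⟨j, j1, j2, h⟩ := (hP _).1 hv'
      exact F3 i j i1 i2 j1 j2 h.symm
    have huP : u ∉ P := by
      intro h; obtain ⟨j, j1, j2, h⟩ := (hP _).1 h; exact F2' j j1 j2 h
    have hmuP : m u ∉ P := by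
      intro h; obtain ⟨j, j1, j2, h⟩ := (hP _).1 h; exact F1 j j1 j2 h
    have hmuC : π.SameCycle r (m u) := hku ▸ hpw k
    have huch : π.SameCycle u (m u) := hu.symm.trans hmuC
    have huCh : u ∈ Ch := (hChm u).2 ⟨(hCm u).2 hu, huch⟩
    have hmuCh : m u ∈ Ch := hChc u huCh
    let Ch' : Finset V := (Ch.erase u).erase (m u)
    have hCh' : ∀ v, v ∈ Ch' ↔ v ∈ Ch ∧ v ≠ u ∧ v ≠ m u := by
      intro v
      simp only [Ch', Finset.mem_erase]
      tauto
    have hCh'c : ∀ v ∈ Ch', m v ∈ Ch' := by
      intro v hv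
      rw [hCh'] at hv ⊢
      refine ⟨hChc v hv.1, ?_, ?_⟩
      · intro h; apply hv.2.2; rw [← h, hm]
      · intro h; apply hv.2.1; rw [← hm v, h, hm]
    have hCh'card : Ch'.card + 2 = Ch.card := by
      have h1 : (Ch.erase u).card + 1 = Ch.card := Finset.card_erase_add_one huCh
      have h2 : Ch'.card + 1 = (Ch.erase u).card :=
        Finset.card_erase_add_one (Finset.mem_erase.2 ⟨hne u, hmuCh⟩)
      omega
    let S1 : Finset V := Ch'.filter (fun v => v ∉ P ∧ (m v ∈ P ∨ idx v < idx (m v)))
    have hS1x : ∀ v ∈ Ch', (v ∈ S1 ∧ m v ∉ S1) ∨ (v ∉ S1 ∧ m v ∈ S1) := by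
      intro v hv
      have hv' := hCh'c v hv
      by_cases h1 : v ∈ P
      · right
        refine ⟨fun h => (Finset.mem_filter.1 h).2.1 h1, Finset.mem_filter.2 ⟨hv', hPm v h1, ?_⟩⟩
        left; rw [hm]; exact h1
      · by_cases h2 : m v ∈ P
        · left
          exact ⟨Finset.mem_filter.2 ⟨hv, h1, Or.inl h2⟩, fun h => (Finset.mem_filter.1 h).2.1 h2⟩
        · rcases lt_trichotomy (idx v) (idx (m v)) with h | h | h
          · left
            refine ⟨Finset.mem_filter.2 ⟨hv, h1, Or.inr h⟩, fun h' => ?_⟩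
            have h3 := (Finset.mem_filter.1 h').2.2
            rw [hm] at h3
            rcases h3 with h3 | h3
            · exact h1 h3
            · exact lt_asymm h h3
          · exact absurd h (hidx v)
          · right
            refine ⟨fun h' => ?_, Finset.mem_filter.2 ⟨hv', h2, Or.inr (by rw [hm]; exact h)⟩⟩
            rcases (Finset.mem_filter.1 h').2.2 with h3 | h3
            · exact h2 h3
            · exact lt_asymm h h3
    have hS1card : Ch'.card = 2 * S1.card :=
      transversal m hm Ch' S1 hCh'c (Finset.filter_subset _ _) hS1x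
    have hS1even : Even S1.card := by
      have h2 : 2 * S1.card + 2 = 2 * S0.card := by rw [← hS1card, hCh'card, hS0]
      rw [Nat.even_iff]; rw [Nat.odd_iff] at hodd; omega
    let s : V → F2 := fun v => if v ∈ S1 then 1 else 0
    have hs : ∑ v ∈ C, s v = 0 := by
      simp only [s, ← Finset.sum_filter]
      have h1 : C.filter (fun v => v ∈ S1) = S1 := by
        ext v
        rw [Finset.mem_filter]
        exact ⟨fun h => h.2, fun h =>
          ⟨((hChm v).1 ((hCh' v).1 (Finset.mem_filter.1 h).1).1).1, h⟩⟩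
      rw [h1, Finset.sum_const, nsmul_eq_mul, mul_one]
      exact (ZMod.natCast_eq_zero_iff_even).2 hS1even
    let t : V → F2 := fun v => (if v = u then 1 else 0) + (if v = m u then 1 else 0)
    have ht : ∑ v ∈ C, t v = 0 := by
      simp only [t]
      rw [Finset.sum_add_distrib, Finset.sum_ite_eq' C u, Finset.sum_ite_eq' C (m u),
        if_pos ((hCm u).2 hu), if_pos ((hCm _).2 hmuC)]
      decide
    have htu : t u = 1 := by
      simp only [t, if_true, if_neg (fun h => hne u h.symm : ¬ u = m u), add_zero]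
    have htmu : t (m u) = 1 := by
      simp only [t, if_true, if_neg (hne u), zero_add]
    have ht0 : ∀ v, v ≠ u → v ≠ m u → t v = 0 := by
      intro v h1 h2; simp [t, h1, h2]
    have hsu : s u = 0 := if_neg (fun h => ((hCh' _).1 (Finset.mem_filter.1 h).1).2.1 rfl)
    have hsmu : s (m u) = 0 := if_neg (fun h => ((hCh' _).1 (Finset.mem_filter.1 h).1).2.2 rfl)
    have hsP : ∀ v ∈ P, s v = 0 := fun v hv => if_neg (fun h => (Finset.mem_filter.1 h).2.1 hv)
    have htP : ∀ v ∈ P, t v = 0 := fun v hv =>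
      ht0 v (fun h => huP (h ▸ hv)) (fun h => hmuP (h ▸ hv))
    obtain ⟨pu, qu⟩ := hch u huch
    obtain ⟨pmu, qmu⟩ := hch (m u) (hchm u huch)
    obtain ⟨k', rfl⟩ : ∃ k', k = k' + 1 := ⟨k - 1, by omega⟩
    have hjP : ∀ j, j < k' → (π ^ (j + 1)) u ∈ P := fun j hj =>
      (hP _).2 ⟨j + 1, by omega, by omega, rfl⟩
    -- telescoping along the short arc
    have tele : ∀ (y G : V → F2), (∀ v, π.SameCycle u v → y v + y (π.symm v) = G v) →
        y (m u) = y u + ((∑ j ∈ Finset.range k', G ((π ^ (j + 1)) u)) + G (m u)) := by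
      intro y G hG
      rw [← hku, telescope π y G u hG (k' + 1), Finset.sum_range_succ]
    let σy : F2 := ∑ j ∈ Finset.range k', p ((π ^ (j + 1)) u)
    let σz : F2 := ∑ j ∈ Finset.range k', q ((π ^ (j + 1)) u)
    -- choose the kind of the special chord
    obtain ⟨ty, tz, tw, hty⟩ : ∃ ty tz tw : F2, (ty = 1 ∧ tz = 0 ∧ tw = 0 ∧ σy = 0) ∨
        (ty = 0 ∧ tz = 1 ∧ tw = 0 ∧ σz = 0) ∨ (ty = 0 ∧ tz = 0 ∧ tw = 1 ∧ σy + σz = 0) := by
      rcases f2_cases σy with h1 | h1
      · exact ⟨1, 0, 0, Or.inl ⟨rfl, rfl, rfl, h1⟩⟩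
      · rcases f2_cases σz with h2 | h2
        · exact ⟨0, 1, 0, Or.inr (Or.inl ⟨rfl, rfl, rfl, h2⟩)⟩
        · exact ⟨0, 0, 1, Or.inr (Or.inr ⟨rfl, rfl, rfl, by rw [h1, h2]; decide⟩)⟩
    refine ⟨fun v => p v + s v + ty * t v, fun v => q v + s v + tz * t v,
      fun v => p v + q v + s v + (ty + tz) * t v, fun v => tw * t v, ?_, ?_, ?_, ?_, ?_, ?_⟩
    · intro v _ hv
      have h1 : s v = 0 := if_neg (fun h =>
        hv ((hChm v).1 ((hCh' v).1 (Finset.mem_filter.1 h).1).1).2)
      have h2 : t v = 0 := ht0 v (fun h => hv (h ▸ huch)) (fun h => hv (h ▸ hchm u huch))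
      simp [h1, h2]
    · intro v hv hvc
      have hvC : v ∈ Ch := (hChm v).2 ⟨(hCm v).2 hv, hvc⟩
      by_cases hsp : v = u ∨ v = m u
      · -- the special chord
        have hcond : ∀ (y G : V → F2), (∀ w, π.SameCycle v w → y w + y (π.symm w) = G w) →
            (∑ j ∈ Finset.range k', G ((π ^ (j + 1)) u)) + G (m u) = 0 → y v = y (m v) := by
          intro y G hG h0
          have h1 : y (m u) = y u := by
            rw [tele y G (fun w hw => hG w (by
              rcases hsp with rfl | rfl
              · exact hw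
              · exact huch.symm.trans hw)), h0, add_zero]
          rcases hsp with rfl | rfl
          · exact h1.symm
          · rw [hm]; exact h1
        have hv1 : t v = 1 ∧ s v = 0 ∧ p v = 1 ∧ q v = 1 ∧ t (m v) = 1 ∧ s (m v) = 0 ∧
            p (m v) = 1 ∧ q (m v) = 1 := by
          rcases hsp with rfl | rfl
          · exact ⟨htu, hsu, pu, qu, htmu, hsmu, pmu, qmu⟩
          · rw [hm]
            exact ⟨htmu, hsmu, pmu, qmu, htu, hsu, pu, qu⟩
        obtain ⟨e1, e2, e3, e4, e5, e6, e7, e8⟩ := hv1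
        have arc : ∀ (g : V → F2) (α : F2), ∑ j ∈ Finset.range k',
            (g ((π ^ (j + 1)) u) + s ((π ^ (j + 1)) u) + α * t ((π ^ (j + 1)) u)) =
            ∑ j ∈ Finset.range k', g ((π ^ (j + 1)) u) := by
          intro g α
          apply Finset.sum_congr rfl
          intro j hj
          have := hjP j (Finset.mem_range.1 hj)
          rw [hsP _ this, htP _ this, mul_zero, add_zero, add_zero]
        rcases hty with ⟨rfl, rfl, rfl, hσ⟩ | ⟨rfl, rfl, rfl, hσ⟩ | ⟨rfl, rfl, rfl, hσ⟩
        · right; right; left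
          simp only [e1, e2, e3, e4, e5, e6, e7, e8]
          refine ⟨by decide, by decide, by decide, by decide, by decide, by decide, by decide,
            by decide, ?_⟩
          intro y hy
          apply hcond y _ hy
          rw [arc p 1, hsmu, htmu, pmu]
          show σy + _ = 0
          rw [hσ]; decide
        · right; right; right; left
          simp only [e1, e2, e3, e4, e5, e6, e7, e8]
          refine ⟨by decide, by decide, by decide, by decide, by decide, by decide, by decide,
            by decide, ?_⟩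
          intro y hy
          apply hcond y _ hy
          rw [arc q 1, hsmu, htmu, qmu]
          show σz + _ = 0
          rw [hσ]; decide
        · right; right; right; right
          simp only [e1, e2, e3, e4, e5, e6, e7, e8]
          refine ⟨by decide, by decide, by decide, by decide, by decide, by decide, by decide,
            by decide, ?_⟩
          intro y hy
          apply hcond y _ hy
          rw [arc (fun v => p v + q v) (0 + 0), hsmu, htmu, pmu, qmu, Finset.sum_add_distrib]
          show σy + σz + _ = 0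
          rw [hσ]; decide
      · push Not at hsp
        have hvC' : v ∈ Ch' := (hCh' v).2 ⟨hvC, hsp.1, hsp.2⟩
        have hmv := (hCh' _).1 (hCh'c v hvC')
        obtain ⟨p1, q1⟩ := hch v hvc
        obtain ⟨p2, q2⟩ := hch (m v) (hchm v hvc)
        have t1 := ht0 v hsp.1 hsp.2
        have t2 := ht0 (m v) hmv.2.1 hmv.2.2
        rcases hS1x v hvC' with ⟨h1, h2⟩ | ⟨h1, h2⟩
        · have e1 : s v = 1 := if_pos h1
          have e2 : s (m v) = 0 := if_neg h2
          left
          simp only [p1, q1, p2, q2, e1, e2, t1, t2, mul_zero]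
          decide
        · have e1 : s v = 0 := if_neg h1
          have e2 : s (m v) = 1 := if_pos h2
          right; left
          simp only [p1, q1, p2, q2, e1, e2, t1, t2, mul_zero]
          decide
    · rw [Finset.sum_add_distrib, Finset.sum_add_distrib, hCp, hs, ← Finset.mul_sum, ht]; simp
    · rw [Finset.sum_add_distrib, Finset.sum_add_distrib, hCq, hs, ← Finset.mul_sum, ht]; simp
    · rw [Finset.sum_add_distrib, Finset.sum_add_distrib, hCpq, hs, ← Finset.mul_sum, ht]; simp
    · rw [← Finset.mul_sum, ht]; simp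

end Labels

end Pool.Agent.Helper879.ECD
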