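import Pool.Agent.Helper879.ECD.Assemble

set_option autoImplicit false

namespace Pool.Agent.Helper879.ECD

open Finset

section Model

variable {V E : Type}

/-- A cubic multigraph presented by a 2-factor (permutation `π`, edge `f v` from `v` to `π v`) and
a perfect matching (involution `m`, edge `g v` joining `v` and `m v`). -/
structure IsModel (G : MGraph V E) (π : Equiv.Perm V) (m : V → V) (f g : V → E) : Prop where
  hm : ∀ v, m (m v) = v
  hne : ∀ v, m v ≠ v
  hπ : ∀ v, π v ≠ v
  ef : ∀ v, G.ends (f v) = s(v, π v)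
  eg : ∀ v, G.ends (g v) = s(v, m v)
  finj : Function.Injective f
  geq : ∀ u v, g u = g v ↔ u = v ∨ u = m v
  fg : ∀ u v, f u ≠ g v
  cover : ∀ e, (∃ v, e = f v) ∨ ∃ v, e = g v

variable {G : MGraph V E} {π : Equiv.Perm V} {m : V → V} {f g : V → E}

lemma IsModel.mem_f (h : IsModel G π m f g) (u v : V) : v ∈ G.ends (f u) ↔ v = u ∨ v = π u := by
  rw [h.ef, Sym2.mem_iff]

lemma IsModel.mem_g (h : IsModel G π m f g) (u v : V) : v ∈ G.ends (g u) ↔ v = u ∨ v = m u := by
  rw [h.eg, Sym2.mem_iff]

lemma IsModel.at_v (h : IsModel G π m f g) {v : V} {e : E} (he : v ∈ G.ends e) :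
    e = f (π.symm v) ∨ e = f v ∨ e = g v := by
  rcases h.cover e with ⟨u, rfl⟩ | ⟨u, rfl⟩
  · rcases (h.mem_f u v).1 he with rfl | rfl
    · exact Or.inr (Or.inl rfl)
    · left; rw [Equiv.symm_apply_apply]
  · right; right
    rw [h.geq]
    rcases (h.mem_g u v).1 he with rfl | rfl
    · exact Or.inl rfl
    · right; rw [h.hm]

lemma IsModel.symm_ne (h : IsModel G π m f g) (v : V) : π.symm v ≠ v := by
  intro hh
  apply h.hπ v
  conv_lhs => rw [← hh]
  simp

lemma IsModel.f_ne (h : IsModel G π m f g) (v : V) : f (π.symm v) ≠ f v :=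
  fun hh => h.symm_ne v (h.finj hh)

lemma IsModel.v_f1 (h : IsModel G π m f g) (v : V) : v ∈ G.ends (f (π.symm v)) := by
  rw [h.mem_f]; right; simp

lemma IsModel.v_f2 (h : IsModel G π m f g) (v : V) : v ∈ G.ends (f v) := by
  rw [h.mem_f]; left; rfl

lemma IsModel.v_g (h : IsModel G π m f g) (v : V) : v ∈ G.ends (g v) := by
  rw [h.mem_g]; left; rfl

/-- line edges at `v` -/
def la (h : IsModel G π m f g) (v : V) : G.LineEdge :=
  ⟨(v, s(f (π.symm v), f v)), by
    refine ⟨fun hh => h.f_ne v (Sym2.mk_isDiag_iff.1 hh), ?_⟩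
    intro e he
    rcases Sym2.mem_iff.1 he with rfl | rfl
    · exact h.v_f1 v
    · exact h.v_f2 v⟩

def lb (h : IsModel G π m f g) (v : V) : G.LineEdge :=
  ⟨(v, s(f (π.symm v), g v)), by
    refine ⟨fun hh => h.fg _ _ (Sym2.mk_isDiag_iff.1 hh), ?_⟩
    intro e he
    rcases Sym2.mem_iff.1 he with rfl | rfl
    · exact h.v_f1 v
    · exact h.v_g v⟩

def lc (h : IsModel G π m f g) (v : V) : G.LineEdge :=
  ⟨(v, s(f v, g v)), by
    refine ⟨fun hh => h.fg _ _ (Sym2.mk_isDiag_iff.1 hh), ?_⟩
    intro e he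
    rcases Sym2.mem_iff.1 he with rfl | rfl
    · exact h.v_f2 v
    · exact h.v_g v⟩

lemma line_cases (h : IsModel G π m f g) (p : G.LineEdge) :
    p = la h p.1.1 ∨ p = lb h p.1.1 ∨ p = lc h p.1.1 := by
  obtain ⟨⟨v, s⟩, hs1, hs2⟩ := p
  simp only
  induction s with
  | _ a b =>
  have ha : a = f (π.symm v) ∨ a = f v ∨ a = g v := h.at_v (hs2 a (Sym2.mem_mk_left a b))
  have hb : b = f (π.symm v) ∨ b = f v ∨ b = g v := h.at_v (hs2 b (Sym2.mem_mk_right a b))
  have hab : a ≠ b := fun hh => hs1 (Sym2.mk_isDiag_iff.2 hh)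
  rcases ha with rfl | rfl | rfl <;> rcases hb with rfl | rfl | rfl
  · exact absurd rfl hab
  · left; rfl
  · right; left; rfl
  · left; apply Subtype.ext; simp only [la, Sym2.eq_swap]
  · exact absurd rfl hab
  · right; right; rfl
  · right; left; apply Subtype.ext; simp only [lb, Sym2.eq_swap]
  · right; right; apply Subtype.ext; simp only [lc, Sym2.eq_swap]
  · exact absurd rfl hab

lemma la_ne_lb (h : IsModel G π m f g) (v : V) : s(f (π.symm v), f v) ≠ s(f (π.symm v), g v) := by
  intro hh
  rw [Sym2.eq_iff] at hh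
  rcases hh with ⟨_, h2⟩ | ⟨h1, _⟩
  · exact h.fg _ _ h2
  · exact h.fg _ _ h1

lemma la_ne_lc (h : IsModel G π m f g) (v : V) : s(f (π.symm v), f v) ≠ s(f v, g v) := by
  intro hh
  rw [Sym2.eq_iff] at hh
  rcases hh with ⟨_, h2⟩ | ⟨h1, _⟩
  · exact h.fg _ _ h2
  · exact h.fg _ _ h1

lemma lb_ne_lc (h : IsModel G π m f g) (v : V) : s(f (π.symm v), g v) ≠ s(f v, g v) := by
  intro hh
  rw [Sym2.eq_iff] at hh
  rcases hh with ⟨h1, _⟩ | ⟨h1, _⟩
  · exact h.f_ne v h1
  · exact h.fg _ _ h1

open Classical in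
/-- From a model with labels to an even circuit decomposition of the line graph. -/
theorem ecd_of_model [Fintype V] [DecidableEq V] [Finite E] (h : IsModel G π m f g)
    (y z w x : V → F2) (hloc : ∀ v, Loc π m y z w x v) :
    G.lineGraph.HasEvenCircuitDecomposition := by
  have hfin : Finite G.LineEdge :=
    inferInstanceAs (Finite {p : V × Sym2 E // ¬ p.2.IsDiag ∧ ∀ e ∈ p.2, p.1 ∈ G.ends e})
  -- colours of the line edges
  let κ : G.LineEdge → Col π := fun p =>
    if p.1.2 = s(f (π.symm p.1.1), f p.1.1) then colA π y z w x p.1.1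
    else if p.1.2 = s(f (π.symm p.1.1), g p.1.1) then colB π y z w x p.1.1
    else colC π y z w x p.1.1
  have κa : ∀ v, κ (la h v) = colA π y z w x v := fun v => if_pos rfl
  have κb : ∀ v, κ (lb h v) = colB π y z w x v := by
    intro v
    have h1 : ¬ ((lb h v).1.2 = s(f (π.symm (lb h v).1.1), f (lb h v).1.1)) :=
      fun hh => la_ne_lb h v hh.symm
    simp only [κ]
    rw [if_neg h1]
    exact if_pos rfl
  have κc : ∀ v, κ (lc h v) = colC π y z w x v := by
    intro v
    have h1 : ¬ ((lc h v).1.2 = s(f (π.symm (lc h v).1.1), f (lc h v).1.1)) :=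
      fun hh => la_ne_lc h v hh.symm
    have h2 : ¬ ((lc h v).1.2 = s(f (π.symm (lc h v).1.1), g (lc h v).1.1)) :=
      fun hh => lb_ne_lc h v hh.symm
    simp only [κ]
    rw [if_neg h1, if_neg h2]
    rfl
  -- labels of the vertices of the line graph
  let μ : E → Col π → Bool := fun e k => decide ((∃ u, e = f u ∧ lab π y w u k = 1) ∨
    (∃ v, e = g v ∧ ((colB π y z w x v = k ∧ nuB π y z w x v = 1) ∨
      (colC π y z w x v = k ∧ nuC π y z w x v = 1))))
  have μf : ∀ u k, μ (f u) k = decide (lab π y w u k = 1) := by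
    intro u k
    simp only [μ]
    congr 1
    apply propext
    constructor
    · rintro (⟨u', h1, h2⟩ | ⟨v, h1, _⟩)
      · rw [h.finj h1]; exact h2
      · exact absurd h1 (h.fg _ _)
    · intro h1; exact Or.inl ⟨u, rfl, h1⟩
  have mc : ∀ v, _ := fun v => mate_colors π m y z w x v (hloc v)
  have μgB : ∀ v, μ (g v) (colB π y z w x v) = decide (nuB π y z w x v = 1) := by
    intro v
    simp only [μ]
    congr 1
    apply propext
    constructor
    · rintro (⟨u, h1, _⟩ | ⟨v', h1, h2⟩)
      · exact absurd h1.symm (h.fg _ _)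
      · obtain ⟨_, k1, k2, k3, k4, k5⟩ := mc v
        rcases (h.geq _ _).1 h1.symm with rfl | rfl
        · rcases h2 with ⟨_, h3⟩ | ⟨h2, h3⟩
          · exact h3
          · rw [k1 h2.symm]; exact h3
        · rcases h2 with ⟨h2, h3⟩ | ⟨h2, h3⟩
          · rw [k2 h2.symm]; exact h3
          · rw [k3 h2.symm]; exact h3
    · intro h1
      exact Or.inr ⟨v, rfl, Or.inl ⟨rfl, h1⟩⟩
  have μgC : ∀ v, μ (g v) (colC π y z w x v) = decide (nuC π y z w x v = 1) := by
    intro v
    simp only [μ]
    congr 1
    apply propext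
    constructor
    · rintro (⟨u, h1, _⟩ | ⟨v', h1, h2⟩)
      · exact absurd h1.symm (h.fg _ _)
      · obtain ⟨_, k1, k2, k3, k4, k5⟩ := mc v
        rcases (h.geq _ _).1 h1.symm with rfl | rfl
        · rcases h2 with ⟨h2, h3⟩ | ⟨_, h3⟩
          · rw [← k1 h2]; exact h3
          · exact h3
        · rcases h2 with ⟨h2, h3⟩ | ⟨h2, h3⟩
          · rw [k4 h2.symm]; exact h3
          · rw [k5 h2.symm]; exact h3
    · intro h1
      exact Or.inr ⟨v, rfl, Or.inr ⟨rfl, h1⟩⟩
  have hsw : ∀ v, dl π w v = 1 ∨ dl π w v = 0 := fun v => (f2_cases _).symm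
  have n01 : ¬ ((0 : F2) = 1) := by decide
  -- consequences of the local conditions
  have P1 : ∀ v, dl π w v = 1 → kC π x (π.symm v) = kC π x v := by
    intro v hv
    apply kC_symm
    rcases hloc v with ⟨a1, a2, a3, a4, _⟩ | ⟨a1, a2, a3, a4, _⟩ | ⟨a1, a2, a3, a4, _⟩ |
      ⟨a1, a2, a3, a4, _⟩ | ⟨a1, a2, a3, a4, _⟩ | ⟨a1, a2, a3, a4, _⟩
    · exact a4
    · exact a4
    · exact a4
    · exact a4
    · exact a4
    · rw [hv] at a3; exact absurd a3.symm n01
  have P2 : ∀ v, dl π w v = 0 → y (π.symm v) = 1 + y v ∧ z (π.symm v) = 1 + z v := by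
    intro v hv
    rcases hloc v with ⟨a1, a2, a3, a4, _⟩ | ⟨a1, a2, a3, a4, _⟩ | ⟨a1, a2, a3, a4, _⟩ |
      ⟨a1, a2, a3, a4, _⟩ | ⟨a1, a2, a3, a4, _⟩ | ⟨a1, a2, a3, a4, _⟩
    · rw [hv] at a3; exact absurd a3 n01
    · rw [hv] at a3; exact absurd a3 n01
    · exact ⟨f2_eq_of_add_one a1, f2_eq_of_add_one a2⟩
    · rw [hv] at a3; exact absurd a3 n01
    · exact ⟨f2_eq_of_add_one a1, f2_eq_of_add_one a2⟩
    · exact ⟨f2_eq_of_add_one a1, f2_eq_of_add_one a2⟩
  have kFs : ∀ v, dl π w v = 0 → kF π y z (π.symm v) = kF π y z v := by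
    intro v hv
    obtain ⟨h1, h2⟩ := P2 v hv
    unfold kF
    rw [h1, h2]
    congr 1
    generalize y v = α
    generalize z v = β
    revert α β
    decide
  -- colours at an edge of the 2-factor
  have cu : ∀ u, (colA π y z w x u = kC π x u ∧ colC π y z w x u = kF π y z u) ∨
      (colA π y z w x u = kF π y z u ∧ colC π y z w x u = kC π x u) := by
    intro u
    rcases hsw u with h1 | h1
    · left; simp only [colA, colC, h1, if_true, and_self]
    · right; simp only [colA, colC, h1, n01, if_false, and_self]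
  have cv : ∀ u, (colA π y z w x (π u) = kC π x u ∧ colB π y z w x (π u) = kF π y z u) ∨
      (colA π y z w x (π u) = kF π y z u ∧ colB π y z w x (π u) = kC π x u) := by
    intro u
    rcases hsw (π u) with h1 | h1
    · left
      have h2 := P1 _ h1
      rw [Equiv.symm_apply_apply] at h2
      simp only [colA, colB, h1, if_true, Equiv.symm_apply_apply, h2, and_self]
    · right
      have h2 := kFs _ h1
      rw [Equiv.symm_apply_apply] at h2
      simp only [colA, colB, h1, n01, if_false, Equiv.symm_apply_apply, h2, and_self]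
  have hCF : ∀ u, kC π x u ≠ kF π y z u := fun u => kC_ne_kF π y z x u u
  have hne_v : ∀ p q : G.LineEdge, p.1.1 ≠ q.1.1 → p ≠ q := fun p q hpq hh => hpq (by rw [hh])
  apply ecd_of_cert G.lineGraph κ μ
  · -- each colour at a vertex occurs exactly twice
    intro p e he
    have he' : e ∈ p.1.2 := he
    rcases h.cover e with ⟨u, rfl⟩ | ⟨u, rfl⟩
    · have hall : ∀ q : G.LineEdge, f u ∈ q.1.2 ↔
          (q = la h u ∨ q = lc h u ∨ q = la h (π u) ∨ q = lb h (π u)) := by
        intro q
        constructor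
        · intro hq
          rcases line_cases h q with h1 | h1 | h1
          · rw [h1] at hq
            rcases Sym2.mem_iff.1 hq with h2 | h2
            · have h3 := h.finj h2
              right; right; left
              rw [h1, h3]; simp [la]
            · have h3 : u = q.1.1 := h.finj h2
              left; rw [h3]; exact h1
          · rw [h1] at hq
            rcases Sym2.mem_iff.1 hq with h2 | h2
            · have h3 := h.finj h2
              right; right; right
              rw [h1, h3]; simp [lb]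
            · exact absurd h2 (h.fg _ _)
          · rw [h1] at hq
            rcases Sym2.mem_iff.1 hq with h2 | h2
            · have h3 : u = q.1.1 := h.finj h2
              right; left; rw [h3]; exact h1
            · exact absurd h2 (h.fg _ _)
        · rintro (rfl | rfl | rfl | rfl)
          · exact Sym2.mem_mk_right _ _
          · exact Sym2.mem_mk_left _ _
          · show f u ∈ s(f (π.symm (π u)), f (π u))
            rw [Equiv.symm_apply_apply]; exact Sym2.mem_mk_left _ _
          · show f u ∈ s(f (π.symm (π u)), g (π u))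
            rw [Equiv.symm_apply_apply]; exact Sym2.mem_mk_left _ _
      have hset : {q : G.LineEdge | f u ∈ G.lineGraph.ends q ∧ κ q = κ p} =
          {q | (q = la h u ∨ q = lc h u ∨ q = la h (π u) ∨ q = lb h (π u)) ∧ κ q = κ p} := by
        ext q
        constructor
        · rintro ⟨h1, h2⟩; exact ⟨(hall q).1 h1, h2⟩
        · rintro ⟨h1, h2⟩; exact ⟨(hall q).2 h1, h2⟩
      rw [hset]
      apply pair4 κ
      · intro hh; exact la_ne_lc h u (congrArg (fun q : G.LineEdge => q.1.2) hh)
      · exact hne_v _ _ (fun hh => h.hπ u hh.symm)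
      · exact hne_v _ _ (fun hh => h.hπ u hh.symm)
      · exact hne_v _ _ (fun hh => h.hπ u hh.symm)
      · exact hne_v _ _ (fun hh => h.hπ u hh.symm)
      · intro hh; exact la_ne_lb h (π u) (congrArg (fun q : G.LineEdge => q.1.2) hh)
      · rw [κa, κc, κa, κb]
        rcases cu u with ⟨h1, h2⟩ | ⟨h1, h2⟩ <;> rcases cv u with ⟨h3, h4⟩ | ⟨h3, h4⟩ <;>
          rw [h1, h2, h3, h4]
        · exact Or.inl ⟨rfl, rfl, hCF u⟩
        · exact Or.inr (Or.inl ⟨rfl, rfl, hCF u⟩)
        · exact Or.inr (Or.inl ⟨rfl, rfl, (hCF u).symm⟩)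
        · exact Or.inl ⟨rfl, rfl, (hCF u).symm⟩
      · exact (hall p).1 he'
    · have hall : ∀ q : G.LineEdge, g u ∈ q.1.2 ↔
          (q = lb h u ∨ q = lc h u ∨ q = lb h (m u) ∨ q = lc h (m u)) := by
        intro q
        constructor
        · intro hq
          rcases line_cases h q with h1 | h1 | h1
          · rw [h1] at hq
            rcases Sym2.mem_iff.1 hq with h2 | h2
            · exact absurd h2.symm (h.fg _ _)
            · exact absurd h2.symm (h.fg _ _)
          · rw [h1] at hq
            rcases Sym2.mem_iff.1 hq with h2 | h2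
            · exact absurd h2.symm (h.fg _ _)
            · rcases (h.geq _ _).1 h2 with h3 | h3
              · left; rw [h3]; exact h1
              · right; right; left
                rw [h3, h.hm]; exact h1
          · rw [h1] at hq
            rcases Sym2.mem_iff.1 hq with h2 | h2
            · exact absurd h2.symm (h.fg _ _)
            · rcases (h.geq _ _).1 h2 with h3 | h3
              · right; left; rw [h3]; exact h1
              · right; right; right
                rw [h3, h.hm]; exact h1
        · rintro (rfl | rfl | rfl | rfl)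
          · exact Sym2.mem_mk_right _ _
          · exact Sym2.mem_mk_right _ _
          · show g u ∈ s(f (π.symm (m u)), g (m u))
            rw [(h.geq (m u) u).2 (Or.inr rfl)]; exact Sym2.mem_mk_right _ _
          · show g u ∈ s(f (m u), g (m u))
            rw [(h.geq (m u) u).2 (Or.inr rfl)]; exact Sym2.mem_mk_right _ _
      have hset : {q : G.LineEdge | g u ∈ G.lineGraph.ends q ∧ κ q = κ p} =
          {q | (q = lb h u ∨ q = lc h u ∨ q = lb h (m u) ∨ q = lc h (m u)) ∧ κ q = κ p} := by
        ext q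
        constructor
        · rintro ⟨h1, h2⟩; exact ⟨(hall q).1 h1, h2⟩
        · rintro ⟨h1, h2⟩; exact ⟨(hall q).2 h1, h2⟩
      rw [hset]
      apply pair4 κ
      · intro hh; exact lb_ne_lc h u (congrArg (fun q : G.LineEdge => q.1.2) hh)
      · exact hne_v _ _ (fun hh => h.hne u hh.symm)
      · exact hne_v _ _ (fun hh => h.hne u hh.symm)
      · exact hne_v _ _ (fun hh => h.hne u hh.symm)
      · exact hne_v _ _ (fun hh => h.hne u hh.symm)
      · intro hh; exact lb_ne_lc h (m u) (congrArg (fun q : G.LineEdge => q.1.2) hh)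
      · rw [κb, κc, κb, κc]
        exact (mc u).1
      · exact (hall p).1 he'
  · -- labels alternate
    have key : ∀ a b : F2, a = 1 + b → decide (a = 1) ≠ decide (b = 1) := by decide
    have hA : ∀ v, μ (f (π.symm v)) (colA π y z w x v) ≠ μ (f v) (colA π y z w x v) := by
      intro v
      rw [μf, μf]
      apply key
      rcases hsw v with h1 | h1
      · simp only [colA, h1, if_true, lab, kC, Sum.elim_inl]
        exact f2_eq_of_add_one h1
      · simp only [colA, h1, n01, if_false, lab, kF, Sum.elim_inr]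
        exact (P2 v h1).1
    have hB : ∀ v, μ (f (π.symm v)) (colB π y z w x v) ≠ μ (g v) (colB π y z w x v) := by
      intro v
      rw [μf, μgB]
      apply key
      unfold nuB
      generalize lab π y w (π.symm v) (colB π y z w x v) = α
      revert α
      decide
    have hC : ∀ v, μ (f v) (colC π y z w x v) ≠ μ (g v) (colC π y z w x v) := by
      intro v
      rw [μf, μgC]
      apply key
      unfold nuC
      generalize lab π y w v (colC π y z w x v) = α
      revert α
      decide
    intro p a b hab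
    have hab' : p.1.2 = s(a, b) := hab
    rcases line_cases h p with h1 | h1 | h1
    · rw [h1] at hab' ⊢
      rw [κa]
      rcases Sym2.eq_iff.1 (show s(f (π.symm p.1.1), f p.1.1) = s(a, b) from hab') with
        ⟨rfl, rfl⟩ | ⟨rfl, rfl⟩
      · exact hA _
      · exact (hA _).symm
    · rw [h1] at hab' ⊢
      rw [κb]
      rcases Sym2.eq_iff.1 (show s(f (π.symm p.1.1), g p.1.1) = s(a, b) from hab') with
        ⟨rfl, rfl⟩ | ⟨rfl, rfl⟩
      · exact hB _
      · exact (hB _).symm
    · rw [h1] at hab' ⊢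
      rw [κc]
      rcases Sym2.eq_iff.1 (show s(f p.1.1, g p.1.1) = s(a, b) from hab') with
        ⟨rfl, rfl⟩ | ⟨rfl, rfl⟩
      · exact hC _
      · exact (hC _).symm

end Model

end Pool.Agent.Helper879.ECD
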